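import Mathlib

/-!
# Counting in boxes
-/

set_option autoImplicit false

open Finset

namespace Q99.SML

/-- at most `C` elements in every residue class -/
theorem card_le_classes (T : ℕ) (hT : 0 < T) (C : ℕ) (G : Finset ℤ)
    (h : ∀ r : ℤ, (G.filter (fun n => n % (T : ℤ) = r)).card ≤ C) : G.card ≤ C * T := by
  classical
  have h1 := Finset.card_le_mul_card_image_of_maps_to (s := G)
    (t := (Finset.range T).image (fun n : ℕ => (n : ℤ)))
    (f := fun n => n % (T : ℤ)) (fun n _ => by
      rw [Finset.mem_image]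
      have e1 := Int.emod_nonneg n (by omega : (T : ℤ) ≠ 0)
      have e2 := Int.emod_lt_of_pos n (by omega : (0 : ℤ) < T)
      exact ⟨(n % (T : ℤ)).toNat, Finset.mem_range.2 (by omega), Int.toNat_of_nonneg e1⟩) C
      (fun r _ => h r)
  rwa [Finset.card_image_of_injective _ (fun x y hxy => by simpa using hxy),
    Finset.card_range] at h1

/-- the sum of the sizes of the faces of a box -/
def faces {k : ℕ} (A : Fin k → Finset ℤ) : ℕ := ∑ j, ∏ i, if i = j then 1 else (A i).card

theorem faces_succ {k : ℕ} (A : Fin (k + 1) → Finset ℤ) :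
    faces A = ∏ i : Fin k, (A i.succ).card + (A 0).card * faces (fun i => A i.succ) := by
  unfold faces
  rw [Fin.sum_univ_succ]
  congr 1
  · rw [Fin.prod_univ_succ]
    simp [Fin.succ_ne_zero]
  · rw [Finset.mul_sum]
    refine Finset.sum_congr rfl fun j _ => ?_
    rw [Fin.prod_univ_succ, if_neg (Fin.succ_ne_zero j).symm]
    congr 1
    refine Finset.prod_congr rfl fun i _ => ?_
    simp only [Fin.succ_inj]

theorem faces_eq {k : ℕ} (A : Fin k → Finset ℤ) :
    faces A = ∑ j, ∏ i ∈ univ.erase j, (A i).card := by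
  unfold faces
  refine Finset.sum_congr rfl fun j _ => ?_
  rw [← Finset.mul_prod_erase univ _ (Finset.mem_univ j), if_pos rfl, one_mul]
  refine Finset.prod_congr rfl fun i hi => ?_
  rw [if_neg (Finset.ne_of_mem_erase hi)]

/-- If every line in a coordinate direction meets `S`, within each residue class mod `T`, in at most
`C` points or in the whole class, then the points of `S` whose class mod `T` is not contained in
`S` are rare. -/
theorem box_count (T : ℕ) (hT : 0 < T) (C : ℕ) : ∀ (k : ℕ) (S : (Fin k → ℤ) → Prop)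
    (_ : ∀ (n : Fin k → ℤ) (j : Fin k) (s : ℤ) (Z : Finset ℤ),
      (∀ z ∈ Z, S (Function.update n j (s + T * z))) → C + 1 ≤ Z.card →
        ∀ z : ℤ, S (Function.update n j (s + T * z)))
    (A : Fin k → Finset ℤ) (Bad : Finset (Fin k → ℤ))
    (_ : ∀ n ∈ Bad, (∀ j, n j ∈ A j) ∧ S n ∧ ∃ t : Fin k → ℤ, ¬ S (n + (T : ℤ) • t)),
    Bad.card ≤ C * T * faces A
  | 0, S, _, A, Bad, hBad => by
    rw [Finset.card_eq_zero.2]
    · exact Nat.zero_le _
    · rw [Finset.eq_empty_iff_forall_notMem]
      intro n hn
      obtain ⟨_, h1, t, h2⟩ := hBad n hn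
      apply h2
      have : n + (T : ℤ) • t = n := Subsingleton.elim _ _
      rwa [this]
  | (k + 1), S, h, A, Bad, hBad => by
    classical
    set B1 := Bad.filter (fun n => ∃ t : Fin k → ℤ,
      ¬ S (Fin.cons (n 0) (Fin.tail n + (T : ℤ) • t))) with hB1
    set B2 := Bad.filter (fun n => ¬ ∃ t : Fin k → ℤ,
      ¬ S (Fin.cons (n 0) (Fin.tail n + (T : ℤ) • t))) with hB2
    have hcard : Bad.card = B1.card + B2.card := by
      rw [hB1, hB2, Finset.card_filter_add_card_filter_not]
    have hmem : ∀ n ∈ Bad, n 0 ∈ A 0 ∧ Fin.tail n ∈ Fintype.piFinset (fun i : Fin k => A i.succ) := by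
      intro n hn
      exact ⟨(hBad n hn).1 0, Fintype.mem_piFinset.2 fun i => (hBad n hn).1 i.succ⟩
    -- first part
    have h1 : B1.card ≤ (A 0).card * (C * T * faces (fun i => A i.succ)) := by
      rw [Finset.card_eq_sum_card_fiberwise (f := fun n => n 0) (t := A 0)
        (fun n hn => (hmem n (Finset.mem_filter.1 hn).1).1)]
      rw [← smul_eq_mul]
      refine Finset.sum_le_card_nsmul _ _ _ fun y _ => ?_
      have hinj : Set.InjOn (Fin.tail : (Fin (k+1) → ℤ) → (Fin k → ℤ))
          ((B1.filter (fun n => n 0 = y) : Finset _) : Set (Fin (k+1) → ℤ)) := by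
        intro n hn n' hn' hnn
        rw [Finset.mem_coe, Finset.mem_filter] at hn hn'
        rw [← Fin.cons_self_tail n, ← Fin.cons_self_tail n', hnn, hn.2, hn'.2]
      rw [← Finset.card_image_of_injOn hinj]
      apply box_count T hT C k (fun x => S (Fin.cons y x)) (fun n j s Z hZ hc z => by
        have := h (Fin.cons y n) j.succ s Z (fun z hz => by
          rw [← Fin.cons_update]; exact hZ z hz) hc z
        rwa [← Fin.cons_update] at this) (fun i => A i.succ)
      intro x hx
      rw [Finset.mem_image] at hx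
      obtain ⟨n, hn, rfl⟩ := hx
      rw [Finset.mem_filter] at hn
      obtain ⟨hn, hy⟩ := hn
      rw [hB1, Finset.mem_filter] at hn
      obtain ⟨hn, t, ht⟩ := hn
      have h0 : (Fin.cons (n 0) (Fin.tail n) : Fin (k+1) → ℤ) = n := Fin.cons_self_tail n
      refine ⟨fun j => (hBad n hn).1 j.succ, ?_, t, ?_⟩
      · rw [← hy, h0]
        exact (hBad n hn).2.1
      · rw [← hy]; exact ht
    -- second part
    have h2 : B2.card ≤ (∏ i : Fin k, (A i.succ).card) * (C * T) := by
      rw [Finset.card_eq_sum_card_fiberwise (f := fun n => Fin.tail n)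
        (t := Fintype.piFinset (fun i : Fin k => A i.succ))
        (fun n hn => (hmem n (Finset.mem_filter.1 hn).1).2)]
      rw [← smul_eq_mul, ← Fintype.card_piFinset]
      refine Finset.sum_le_card_nsmul _ _ _ fun x _ => ?_
      set Fb := B2.filter (fun n => Fin.tail n = x) with hFb
      have hinj : Set.InjOn (fun n : Fin (k+1) → ℤ => n 0) (Fb : Set (Fin (k+1) → ℤ)) := by
        intro n hn n' hn' hnn
        rw [Finset.mem_coe, Finset.mem_filter] at hn hn'
        have hnn' : n 0 = n' 0 := hnn
        rw [← Fin.cons_self_tail n, ← Fin.cons_self_tail n', hn.2, hn'.2, hnn']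
      rw [← Finset.card_image_of_injOn hinj]
      apply card_le_classes T hT C
      intro r
      by_contra hcon
      push Not at hcon
      set G := ((Fb.image (fun n : Fin (k+1) → ℤ => n 0)).filter (fun n => n % (T : ℤ) = r)) with hG
      have hform : ∀ y ∈ G, y = r + T * (y / T) := by
        intro y hy
        rw [hG, Finset.mem_filter] at hy
        have := Int.emod_add_mul_ediv y T
        rw [hy.2] at this
        exact this.symm
      have hinj2 : Set.InjOn (fun n : ℤ => n / T) (G : Set ℤ) := by
        intro a ha b hb hab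
        rw [hform a ha, hform b hb]
        have hab' : a / (T : ℤ) = b / T := hab
        rw [hab']
      have hyx : ∀ y ∈ G, ∃ n ∈ Fb, n 0 = y := by
        intro y hy
        rw [hG, Finset.mem_filter, Finset.mem_image] at hy
        exact hy.1
      have hall : ∀ (t : Fin k → ℤ) (z : ℤ), S (Fin.cons (r + T * z) (x + (T : ℤ) • t)) := by
        intro t z
        have h3 := h (Fin.cons 0 (x + (T : ℤ) • t)) 0 r (G.image (fun n => n / T)) (by
          intro z hz
          rw [Finset.mem_image] at hz
          obtain ⟨y, hy, rfl⟩ := hz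
          rw [Fin.update_cons_zero, ← hform y hy]
          obtain ⟨n, hn, rfl⟩ := hyx y hy
          rw [hFb, Finset.mem_filter, hB2, Finset.mem_filter] at hn
          obtain ⟨⟨_, hn2⟩, rfl⟩ := hn
          by_contra hcc
          exact hn2 ⟨t, hcc⟩) (by
          rw [Finset.card_image_of_injOn hinj2]; exact hcon) z
        rwa [Fin.update_cons_zero] at h3
      obtain ⟨y, hy⟩ : G.Nonempty := by rw [← Finset.card_pos]; omega
      obtain ⟨n, hn, hny⟩ := hyx y hy
      have hf := hform y hy
      rw [hFb, Finset.mem_filter, hB2, Finset.mem_filter] at hn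
      obtain ⟨⟨hn, _⟩, hx⟩ := hn
      obtain ⟨_, _, t, ht⟩ := hBad n hn
      apply ht
      have h4 := hall (Fin.tail t) (y / T + t 0)
      have h5 : n + (T : ℤ) • t = Fin.cons (r + T * (y / T + t 0)) (x + (T : ℤ) • Fin.tail t) := by
        rw [← Fin.cons_self_tail (n + (T : ℤ) • t)]
        congr 1
        · rw [Pi.add_apply, Pi.smul_apply, hny, smul_eq_mul, mul_add, ← add_assoc, ← hf]
        · rw [← hx]
          rfl
      rw [h5]
      exact h4
    rw [hcard, faces_succ]
    calc B1.card + B2.card ≤ (A 0).card * (C * T * faces (fun i => A i.succ)) +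
          (∏ i : Fin k, (A i.succ).card) * (C * T) := Nat.add_le_add h1 h2
      _ = _ := by ring

end Q99.SML
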