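import Mathlib

/-!
# Words in involutions satisfying the braid relations

If a word in the adjacent transpositions is trivial as a permutation, then it is trivial in every group
with involutions satisfying the braid relations.
-/

set_option autoImplicit false

namespace Q99.SML

/-- involutions `s 0, …, s (r-1)` satisfying the braid relations -/
structure Cox {G : Type*} [Group G] (r : ℕ) (s : ℕ → G) : Prop where
  sq : ∀ i, i < r → s i * s i = 1
  br : ∀ i, i + 1 < r → s i * s (i+1) * s i = s (i+1) * s i * s (i+1)
  far : ∀ i j, j < r → i + 2 ≤ j → s i * s j = s j * s i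

variable {G : Type*} [Group G]

theorem Cox.mono {r r' : ℕ} {s : ℕ → G} (h : Cox r s) (hr : r' ≤ r) : Cox r' s where
  sq i hi := h.sq i (by omega)
  br i hi := h.br i (by omega)
  far i j hj hij := h.far i j (by omega) hij

/-- the product `s_{r-1} s_{r-2} ⋯` of `k` factors -/
def desc (s : ℕ → G) (r : ℕ) : ℕ → G
  | 0 => 1
  | (k + 1) => desc s r k * s (r - 1 - k)

theorem desc_low {r : ℕ} {s : ℕ → G} (h : Cox r s) (i : ℕ) : ∀ k, k ≤ r → i + 1 < r - k →
    desc s r k * s i = s i * desc s r k
  | 0, _, _ => by simp [desc]
  | (k + 1), hk, hi => by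
    have ih := desc_low h i k (by omega) (by omega)
    have h1 := h.far i (r - 1 - k) (by omega) (by omega)
    rw [desc, mul_assoc, ← h1, ← mul_assoc, ih, mul_assoc]

theorem desc_high {r : ℕ} {s : ℕ → G} (h : Cox r s) : ∀ k, k ≤ r → ∀ i, r - k < i → i < r →
    desc s r k * s i = s (i - 1) * desc s r k
  | 0, _, i, hi, hi2 => by omega
  | (k + 1), hk, i, hi, hi2 => by
    by_cases h0 : r - k < i
    · have ih := desc_high h k (by omega) i h0 hi2
      have h1 := h.far (r - 1 - k) i hi2 (by omega)
      rw [desc, mul_assoc, h1, ← mul_assoc, ih, mul_assoc]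
    · have hik : i = r - k := by omega
      obtain ⟨k, rfl⟩ : ∃ k', k = k' + 1 := ⟨k - 1, by omega⟩
      have e1 : r - 1 - k = i := by omega
      have e2 : r - 1 - (k + 1) = i - 1 := by omega
      have h1 := h.br (i - 1) (by omega)
      have e3 : i - 1 + 1 = i := by omega
      rw [e3] at h1
      have h2 := desc_low h (i - 1) k (by omega) (by omega)
      rw [desc, desc, e1, e2]
      calc desc s r k * s i * s (i - 1) * s i = desc s r k * (s i * s (i-1) * s i) := by group
        _ = desc s r k * (s (i-1) * s i * s (i-1)) := by rw [h1]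
        _ = desc s r k * s (i-1) * (s i * s (i-1)) := by group
        _ = s (i-1) * desc s r k * (s i * s (i-1)) := by rw [h2]
        _ = _ := by group

theorem normal_form {r : ℕ} {s : ℕ → G} (h : Cox r s) (w : List ℕ) (hw : ∀ i ∈ w, i < r) :
    ∃ (w' : List ℕ) (k : ℕ), (∀ i ∈ w', i + 1 < r) ∧ k ≤ r ∧
      (w.map s).prod = (w'.map s).prod * desc s r k := by
  induction w using List.reverseRecOn with
  | nil => exact ⟨[], 0, by simp, by omega, by simp [desc]⟩
  | append_singleton w i ih =>
    obtain ⟨w', k, h1, h2, h3⟩ := ih (fun j hj => hw j (by simp [hj]))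
    have hi : i < r := hw i (by simp)
    have h4 : ((w ++ [i]).map s).prod = (w'.map s).prod * (desc s r k * s i) := by
      rw [List.map_append, List.prod_append, h3]
      simp [mul_assoc]
    rcases lt_trichotomy (i + 1) (r - k) with h5 | h5 | h5
    · refine ⟨w' ++ [i], k, ?_, h2, ?_⟩
      · intro j hj
        rw [List.mem_append, List.mem_singleton] at hj
        rcases hj with hj | rfl
        · exact h1 j hj
        · omega
      · rw [h4, desc_low h i k h2 h5]
        simp [mul_assoc]
    · refine ⟨w', k + 1, h1, by omega, ?_⟩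
      rw [h4, desc]
      have : r - 1 - k = i := by omega
      rw [this]
    · by_cases h6 : i = r - k
      · obtain ⟨k, rfl⟩ : ∃ k', k = k' + 1 := ⟨k - 1, by omega⟩
        refine ⟨w', k, h1, by omega, ?_⟩
        rw [h4, desc]
        have : r - 1 - k = i := by omega
        rw [this, mul_assoc, h.sq i hi, mul_one]
      · refine ⟨w' ++ [i - 1], k, ?_, h2, ?_⟩
        · intro j hj
          rw [List.mem_append, List.mem_singleton] at hj
          rcases hj with hj | rfl
          · exact h1 j hj
          · omega
        · rw [h4, desc_high h k h2 i (by omega) hi]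
          simp [mul_assoc]

/-- adjacent transpositions -/
def tr (i : ℕ) : Equiv.Perm ℕ := Equiv.swap i (i + 1)

theorem cox_tr (r : ℕ) : Cox r tr where
  sq i _ := Equiv.swap_mul_self _ _
  br i _ := by
    unfold tr
    ext x
    simp only [Equiv.Perm.coe_mul, Function.comp_apply, Equiv.swap_apply_def]
    split_ifs <;> omega
  far i j _ hij := by
    unfold tr
    apply Equiv.Perm.Disjoint.commute
    intro x
    by_cases h1 : x = i
    · right; exact Equiv.swap_apply_of_ne_of_ne (by omega) (by omega)
    · by_cases h2 : x = i + 1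
      · right; exact Equiv.swap_apply_of_ne_of_ne (by omega) (by omega)
      · left; exact Equiv.swap_apply_of_ne_of_ne h1 h2

theorem tr_fix (r : ℕ) (w : List ℕ) (hw : ∀ i ∈ w, i + 1 < r) : (w.map tr).prod r = r := by
  induction w with
  | nil => rfl
  | cons i w ih =>
    rw [List.map_cons, List.prod_cons, Equiv.Perm.mul_apply, ih (fun j hj => hw j (by simp [hj]))]
    have := hw i (by simp)
    exact Equiv.swap_apply_of_ne_of_ne (by omega) (by omega)

theorem tr_desc (r : ℕ) : ∀ k, k ≤ r → desc tr r k (r - k) = r
  | 0, _ => rfl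
  | (k + 1), hk => by
    rw [desc, Equiv.Perm.mul_apply]
    have h1 : tr (r - 1 - k) (r - (k + 1)) = r - k := by
      unfold tr
      have e1 : r - 1 - k = r - (k + 1) := by omega
      have e2 : r - (k + 1) + 1 = r - k := by omega
      rw [e1, Equiv.swap_apply_left, e2]
    rw [h1, tr_desc r k (by omega)]

/-- a word which is trivial in the symmetric group is trivial -/
theorem cox_main : ∀ (r : ℕ) (s : ℕ → G), Cox r s → ∀ w : List ℕ, (∀ i ∈ w, i < r) →
    (w.map tr).prod = 1 → (w.map s).prod = 1
  | 0, s, _, w, hw, _ => by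
    have : w = [] := List.eq_nil_iff_forall_not_mem.2 fun i hi => by
      have := hw i hi; omega
    rw [this]; rfl
  | (r + 1), s, h, w, hw, ht => by
    have hc : Cox (r + 1) (fun i => (s i, tr i) : ℕ → G × Equiv.Perm ℕ) :=
      { sq := fun i hi => Prod.ext (h.sq i hi) ((cox_tr (r+1)).sq i hi)
        br := fun i hi => Prod.ext (h.br i hi) ((cox_tr (r+1)).br i hi)
        far := fun i j hj hij => Prod.ext (h.far i j hj hij) ((cox_tr (r+1)).far i j hj hij) }
    obtain ⟨w', k, h1, h2, h3⟩ := normal_form hc w hw
    have hfst : ∀ l : List ℕ, ((l.map (fun i => (s i, tr i) : ℕ → G × Equiv.Perm ℕ)).prod).1 =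
        (l.map s).prod := by
      intro l
      induction l with
      | nil => rfl
      | cons i l ih => rw [List.map_cons, List.prod_cons, Prod.fst_mul, ih, List.map_cons,
          List.prod_cons]
    have hsnd : ∀ l : List ℕ, ((l.map (fun i => (s i, tr i) : ℕ → G × Equiv.Perm ℕ)).prod).2 =
        (l.map tr).prod := by
      intro l
      induction l with
      | nil => rfl
      | cons i l ih => rw [List.map_cons, List.prod_cons, Prod.snd_mul, ih, List.map_cons,
          List.prod_cons]
    have hdesc : ∀ k, (desc (fun i => (s i, tr i) : ℕ → G × Equiv.Perm ℕ) (r+1) k).2 =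
        desc tr (r+1) k := by
      intro k
      induction k with
      | zero => rfl
      | succ k ih => rw [desc, desc, Prod.snd_mul, ih]
    have h4 := congrArg Prod.snd h3
    rw [Prod.snd_mul, hsnd, hsnd, hdesc, ht] at h4
    have h5 := congrArg (fun e : Equiv.Perm ℕ => e (r + 1 - k)) h4
    simp only [Equiv.Perm.coe_one, id, Equiv.Perm.coe_mul, Function.comp_apply] at h5
    rw [tr_desc (r+1) k h2, tr_fix (r+1) w' h1] at h5
    have hk : k = 0 := by omega
    subst hk
    have h6 := congrArg Prod.fst h3
    rw [Prod.fst_mul, hfst, hfst] at h6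
    rw [h6]
    have h7 : (desc (fun i => (s i, tr i) : ℕ → G × Equiv.Perm ℕ) (r+1) 0).1 = 1 := rfl
    rw [h7, mul_one]
    apply cox_main r s (h.mono (by omega)) w' (fun i hi => by have := h1 i hi; omega)
    have h8 : desc tr (r+1) 0 = 1 := rfl
    rw [h8, mul_one] at h4
    exact h4.symm

end Q99.SML
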