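import Pool.Agent.H891R2.Jones.Diagram
import Pool.Agent.W639.RB.Defs

/-!
# Powers of braid words in a box of a link diagram

`Outer m` (starting library `Pool.Agent.H891R2.Jones.Diagram`) is the part of an oriented link
diagram outside a box through which `m` strands run; `draw O w` (library `Pool.Agent.W639.RB.Defs`)
draws the word `w` in the box: the letter `(true, i)` is `σ_i`, `(false, i)` is `σ_i⁻¹`, and letters
with `i + 1 ≥ m` are ignored.
-/

set_option autoImplicit false

namespace Q99.SML

open Pool.Agent.H891R2.Jones Pool.Agent.W639.RB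

/-- a word in the letters `σ_i^{±1}` -/
abbrev Word : Type := List (Bool × ℕ)

/-- the permutation of the word `w` on `m` strands, as a permutation of `0, …, m - 1` (extended by the
identity to `ℕ`); a braid is pure if it is the identity -/
def wperm (m : ℕ) (w : Word) : Equiv.Perm ℕ :=
  (w.map (fun x => if x.2 + 1 < m then Equiv.swap x.2 (x.2 + 1) else 1)).prod

/-- the inverse word -/
def invWord (w : Word) : Word := (w.map (fun x => (!x.1, x.2))).reverse

/-- the power `w^n`, `n ∈ ℤ`, is drawn in the box of `O`: for `n ≥ 0` the word `w` is drawn `n`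
times, for `n < 0` the inverse word is drawn `|n|` times -/
def power {m : ℕ} (O : Outer m) (w : Word) : ℤ → Outer m
  | Int.ofNat n => (fun O : Outer m => draw O w)^[n] O
  | Int.negSucc n => (fun O : Outer m => draw O (invWord w))^[n+1] O

/-- the product `w_0^{n_0} u_0 w_1^{n_1} u_1 ⋯ w_{k-1}^{n_{k-1}} u_{k-1}` is drawn in the box of `O` -/
def family {m : ℕ} : {k : ℕ} → Outer m → (Fin k → Word) → (Fin k → Word) → (Fin k → ℤ) → Outer m
  | 0, O, _, _, _ => O
  | _ + 1, O, w, u, n =>
    family (draw (power O (w 0) (n 0)) (u 0)) (Fin.tail w) (Fin.tail u) (Fin.tail n)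

end Q99.SML
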