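import Mathlib

/-!
# The ring of Laurent polynomials with integer coefficients embeds into `ℤ_[p]`
-/

set_option autoImplicit false

open Polynomial LaurentPolynomial

namespace Q99.SML

variable (p : ℕ) [hp : Fact p.Prime]

theorem exists_transcendental : ∃ x : ℚ_[p], Transcendental ℤ x := by
  by_contra hcon
  push Not at hcon
  have h1 : {x : ℚ_[p] | IsAlgebraic ℤ x}.Countable := Algebraic.countable ℤ ℚ_[p]
  have h2 : {x : ℚ_[p] | IsAlgebraic ℤ x} = Set.univ := by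
    ext x
    simp only [Set.mem_ofPred_eq, Set.mem_univ, iff_true]
    exact not_not.1 (hcon x)
  rw [h2] at h1
  have h3 := continuum_le_cardinal_of_nontriviallyNormedField ℚ_[p]
  have h4 : Cardinal.mk ℚ_[p] ≤ Cardinal.aleph0 := by
    rw [← Cardinal.mk_univ]
    exact Cardinal.le_aleph0_iff_set_countable.2 h1
  exact absurd (h3.trans h4) (not_le.2 Cardinal.aleph0_lt_continuum)

theorem exists_transcendental_int : ∃ y : ℤ_[p], Transcendental ℤ (y : ℚ_[p]) := by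
  obtain ⟨x, hx⟩ := exists_transcendental p
  by_cases h : ‖x‖ ≤ 1
  · exact ⟨⟨x, h⟩, hx⟩
  · push Not at h
    refine ⟨⟨x⁻¹, ?_⟩, ?_⟩
    · rw [norm_inv]; exact inv_le_one_of_one_le₀ h.le
    · intro ha
      apply hx
      have := ha.inv
      simpa using this

theorem exists_unit : ∃ a : ℤ_[p]ˣ, Transcendental ℤ ((a : ℤ_[p]) : ℚ_[p]) ∧
    PadicInt.toZMod (a : ℤ_[p]) = 1 := by
  obtain ⟨y, hy⟩ := exists_transcendental_int p
  have hmod : PadicInt.toZMod (1 + (p : ℤ_[p]) * y) = 1 := by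
    rw [map_add, map_one, map_mul, map_natCast, ZMod.natCast_self, zero_mul, add_zero]
  have h1 : IsUnit (1 + (p : ℤ_[p]) * y) := by
    by_contra h
    have h2 : (1 + (p : ℤ_[p]) * y) ∈ IsLocalRing.maximalIdeal ℤ_[p] := by
      rw [IsLocalRing.mem_maximalIdeal]; exact h
    rw [← PadicInt.ker_toZMod, RingHom.mem_ker, hmod] at h2
    exact one_ne_zero h2
  obtain ⟨a, ha⟩ := h1
  refine ⟨a, ?_, by rw [ha]; exact hmod⟩
  rw [ha]
  intro hal
  apply hy
  have hpz : (p : ℚ_[p]) ≠ 0 := by exact_mod_cast hp.out.ne_zero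
  have hpa : IsAlgebraic ℤ ((p : ℚ_[p])⁻¹) := by
    have : IsAlgebraic ℤ ((p : ℤ) : ℚ_[p]) := isAlgebraic_int _
    have h3 := this.inv
    simpa using h3
  have h2 : IsAlgebraic ℤ (((p : ℚ_[p])⁻¹) *
      ((((1 + (p : ℤ_[p]) * y : ℤ_[p])) : ℚ_[p]) - 1)) := hpa.mul (hal.sub isAlgebraic_one)
  have h3 : ((p : ℚ_[p])⁻¹) * ((((1 + (p : ℤ_[p]) * y : ℤ_[p])) : ℚ_[p]) - 1) = (y : ℚ_[p]) := by
    push_cast
    field_simp
    ring
  rwa [h3] at h2

/-- the ring homomorphism to a commutative ring sending `T` to a unit -/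
noncomputable def spec {K : Type*} [CommRing K] (a : Kˣ) : ℤ[T;T⁻¹] →+* K :=
  LaurentPolynomial.eval₂ (Int.castRingHom K) a

theorem spec_T {K : Type*} [CommRing K] (a : Kˣ) (n : ℤ) :
    spec a (T n) = ((a ^ n : Kˣ) : K) := by
  unfold spec
  rw [LaurentPolynomial.eval₂_T]

theorem exists_embedding : ∃ a : ℤ_[p]ˣ, Function.Injective (spec a) ∧
    PadicInt.toZMod (a : ℤ_[p]) = 1 := by
  obtain ⟨a, ha, hmod⟩ := exists_unit p
  refine ⟨a, ?_, hmod⟩
  rw [injective_iff_map_eq_zero]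
  intro f hf
  obtain ⟨n, q, hq⟩ := LaurentPolynomial.exists_T_pow f
  have h1 : spec a (toLaurent q) = 0 := by rw [hq, map_mul, hf, zero_mul]
  unfold spec at h1
  rw [LaurentPolynomial.eval₂_toLaurent] at h1
  have h2 : q = 0 := by
    by_contra hq0
    apply ha
    refine ⟨q, hq0, ?_⟩
    have h3 := congrArg (fun z : ℤ_[p] => (z : ℚ_[p])) h1
    simp only [PadicInt.coe_zero] at h3
    rw [← h3]
    have h4 : ((eval₂ (Int.castRingHom ℤ_[p]) (a : ℤ_[p]) q : ℤ_[p]) : ℚ_[p]) =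
        eval₂ ((PadicInt.Coe.ringHom (p := p)).comp (Int.castRingHom ℤ_[p])) ((a : ℤ_[p]) : ℚ_[p]) q := by
      have := Polynomial.hom_eval₂ q (Int.castRingHom ℤ_[p]) (PadicInt.Coe.ringHom (p := p)) (a : ℤ_[p])
      exact this
    rw [h4, aeval_def]
    congr 1
  rw [h2, map_zero] at hq
  have h5 : f * T n * T (-n) = 0 := by rw [← hq, zero_mul]
  rwa [mul_assoc, ← T_add, add_neg_cancel, T_zero, mul_one] at h5

end Q99.SML
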