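import Pool.Agent.Q99.SML.Padic

/-!
# Powers of invertible `p`-adic integer matrices
-/

set_option autoImplicit false

open Polynomial Finset Matrix

namespace Q99.SML

variable {p : ℕ} [hp : Fact p.Prime] {I : Type*} [Fintype I] [DecidableEq I]

theorem mat_seq (B : Matrix I I ℤ_[p]) (l v : I → ℤ_[p]) (t : ℕ) :
    l ⬝ᵥ ((1 + (p : ℤ_[p]) • B) ^ t *ᵥ v) = ser (fun k => l ⬝ᵥ (B ^ k *ᵥ v)) t := by
  have h1 : (1 + (p : ℤ_[p]) • B) ^ t =
      ∑ k ∈ Finset.range (t + 1), ((t.choose k : ℤ_[p]) * (p : ℤ_[p]) ^ k) • B ^ k := by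
    rw [add_comm, (Commute.one_right ((p : ℤ_[p]) • B)).add_pow]
    refine Finset.sum_congr rfl fun k _ => ?_
    rw [one_pow, mul_one, _root_.smul_pow, smul_mul_assoc, (Nat.cast_commute _ _).symm.eq,
      ← nsmul_eq_mul, mul_comm, mul_comm ((p : ℤ_[p]) ^ k), mul_smul, Nat.cast_smul_eq_nsmul,
      smul_comm]
  rw [h1, ser, Matrix.sum_mulVec, dotProduct_sum]
  refine Finset.sum_congr rfl fun k _ => ?_
  rw [Matrix.smul_mulVec, dotProduct_smul, smul_eq_mul]

theorem phi_mat {R : Type*} [CommRing R] (B : Matrix I I R) (l v : I → R) (Q : R[X]) :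
    phi (fun k => l ⬝ᵥ (B ^ k *ᵥ v)) Q = l ⬝ᵥ (aeval B Q *ᵥ v) := by
  induction Q using Polynomial.induction_on' with
  | add P Q hP hQ => rw [map_add, map_add, hP, hQ, Matrix.add_mulVec, dotProduct_add]
  | monomial n a =>
    rw [phi_monomial, aeval_monomial, ← Algebra.smul_def, Matrix.smul_mulVec, dotProduct_smul,
      smul_eq_mul]

theorem mat_ann {R : Type*} [CommRing R] (B : Matrix I I R) (l v : I → R) :
    Ann B.charpoly (fun k => l ⬝ᵥ (B ^ k *ᵥ v)) := by
  intro Q
  rw [phi_mat, map_mul, Matrix.aeval_self_charpoly, zero_mul, Matrix.zero_mulVec, dotProduct_zero]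

omit [Fintype I] in
theorem exists_one_add (M : Matrix I I ℤ_[p])
    (hM : ∀ i j, PadicInt.toZMod (M i j) = PadicInt.toZMod ((1 : Matrix I I ℤ_[p]) i j)) :
    ∃ B : Matrix I I ℤ_[p], M = 1 + (p : ℤ_[p]) • B := by
  have h3 : ∀ i j, ∃ c, M i j - (1 : Matrix I I ℤ_[p]) i j = (p : ℤ_[p]) * c := by
    intro i j
    have h5 : PadicInt.toZMod (M i j - (1 : Matrix I I ℤ_[p]) i j) = 0 := by
      rw [map_sub, hM, sub_self]
    rw [← RingHom.mem_ker, PadicInt.ker_toZMod, PadicInt.maximalIdeal_eq_span_p,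
      Ideal.mem_span_singleton] at h5
    exact h5
  choose B hB using h3
  refine ⟨Matrix.of B, ?_⟩
  ext i j
  rw [Matrix.add_apply, Matrix.smul_apply, Matrix.of_apply, smul_eq_mul, ← hB]
  ring

variable {k : ℕ}

/-- a sum of power sequences of invertible matrices -/
noncomputable def useq {R : Type*} [CommRing R] (M : Fin k → (Matrix I I R)ˣ) (l v : Fin k → I → R)
    (g : R) (n : ℤ) : R :=
  ∑ i, l i ⬝ᵥ (((M i ^ n : (Matrix I I R)ˣ) : Matrix I I R) *ᵥ v i) - g

theorem base_point (M : Fin k → (Matrix I I ℤ_[p])ˣ) (l v : Fin k → I → ℤ_[p])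
    (g : ℤ_[p]) (T : ℕ) (hT : ∀ i, ∃ B : Matrix I I ℤ_[p],
      ((M i ^ T : (Matrix I I ℤ_[p])ˣ) : Matrix I I ℤ_[p]) = 1 + (p : ℤ_[p]) • B) (s : ℤ) :
    ∃ (b : ℕ → ℤ_[p]) (P : ℤ_[p][X]), P.Monic ∧ P.natDegree = k * Fintype.card I + 1 ∧ Ann P b ∧
      ∀ t : ℕ, useq M l v g (s + T * t) = ser b t := by
  classical
  choose B hB using hT
  let c : Fin k → ℕ → ℤ_[p] := fun i j =>
    (l i ᵥ* ((M i ^ s : (Matrix I I ℤ_[p])ˣ) : Matrix I I ℤ_[p])) ⬝ᵥ ((B i) ^ j *ᵥ v i)
  let c0 : ℕ → ℤ_[p] := fun j => if j = 0 then -g else 0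
  have hser : ∀ t : ℕ, useq M l v g (s + T * t) = ∑ i, ser (c i) t + ser c0 t := by
    intro t
    unfold useq
    rw [sub_eq_add_neg]
    congr 1
    · refine Finset.sum_congr rfl fun i _ => ?_
      have h1 : (M i ^ (s + T * t) : (Matrix I I ℤ_[p])ˣ) = M i ^ s * (M i ^ T) ^ t := by
        rw [_root_.zpow_add, _root_.zpow_mul, zpow_natCast, zpow_natCast]
      rw [h1, Units.val_mul, Units.val_pow_eq_pow_val, hB i, ← mat_seq, ← Matrix.mulVec_mulVec,
        Matrix.dotProduct_mulVec]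
    · unfold ser
      rw [Finset.sum_eq_single 0]
      · simp [c0]
      · intro j _ hj
        simp [c0, hj]
      · intro h
        simp at h
  have hann : ∀ (n : ℕ) (hn : n ≤ k), ∃ P : ℤ_[p][X], P.Monic ∧ P.natDegree = n * Fintype.card I + 1 ∧
      Ann P (∑ i : Fin n, c (Fin.castLE hn i) + c0) := by
    intro n
    induction n with
    | zero =>
      intro _
      refine ⟨X, monic_X, by rw [natDegree_X]; simp, ?_⟩
      intro Q
      rw [Finset.univ_eq_empty, Finset.sum_empty, zero_add]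
      induction Q using Polynomial.induction_on' with
      | add P Q hP hQ => rw [mul_add, map_add, hP, hQ, add_zero]
      | monomial n a =>
        rw [X_mul_monomial, phi_monomial]
        simp [c0]
    | succ n ih =>
      intro hn
      obtain ⟨P, h1, h2, h3⟩ := ih (by omega)
      refine ⟨P * (B ⟨n, by omega⟩).charpoly, h1.mul (Matrix.charpoly_monic _), ?_, ?_⟩
      · rw [h1.natDegree_mul (Matrix.charpoly_monic _), h2, Matrix.charpoly_natDegree_eq_dim]
        ring
      · have h4 := h3.add (mat_ann (B ⟨n, by omega⟩)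
          (l ⟨n, by omega⟩ ᵥ* ((M ⟨n, by omega⟩ ^ s : (Matrix I I ℤ_[p])ˣ) : Matrix I I ℤ_[p]))
          (v ⟨n, by omega⟩))
        have h5 : ∑ i : Fin (n+1), c (Fin.castLE hn i) + c0 =
          ∑ i : Fin n, c (Fin.castLE (by omega) i) + c0 + c ⟨n, by omega⟩ := by
          rw [Fin.sum_univ_castSucc]
          have : (Fin.castLE hn (Fin.last n)) = ⟨n, by omega⟩ := rfl
          rw [this]
          have h6 : ∀ i : Fin n, Fin.castLE hn i.castSucc = Fin.castLE (by omega) i := fun i => rfl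
          simp only [h6]
          ring
        rw [h5]
        exact h4
  obtain ⟨P, h1, h2, h3⟩ := hann k le_rfl
  refine ⟨∑ i, c i + c0, P, h1, h2, h3, fun t => ?_⟩
  rw [hser]
  have hadd : ∀ b b' : ℕ → ℤ_[p], ser (b + b') t = ser b t + ser b' t := by
    intro b b'
    unfold ser
    rw [← Finset.sum_add_distrib]
    refine Finset.sum_congr rfl fun j _ => ?_
    rw [Pi.add_apply]; ring
  rw [hadd]
  congr 1
  unfold ser
  rw [Finset.sum_comm]
  refine Finset.sum_congr rfl fun j _ => ?_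
  rw [Finset.sum_apply, Finset.mul_sum]

/-- many zeros in a residue class: all of the class -/
theorem class_all (hkp : k * Fintype.card I + 1 < p) (M : Fin k → (Matrix I I ℤ_[p])ˣ)
    (l v : Fin k → I → ℤ_[p])
    (g : ℤ_[p]) (T : ℕ) (hT : ∀ i, ∃ B : Matrix I I ℤ_[p],
      ((M i ^ T : (Matrix I I ℤ_[p])ˣ) : Matrix I I ℤ_[p]) = 1 + (p : ℤ_[p]) • B)
    (s : ℤ) (Z : Finset ℤ)
    (hZ : ∀ t ∈ Z, useq M l v g (s + T * t) = 0) (hc : k * Fintype.card I + 1 ≤ Z.card)
    (t : ℤ) : useq M l v g (s + T * t) = 0 := by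
  classical
  have hne : Z.Nonempty := by
    rw [← Finset.card_pos]; omega
  set t0 := min (Z.min' hne) t with ht0
  obtain ⟨b, P, h1, h2, h3, h4⟩ := base_point M l v g T hT (s + T * t0)
  have hle : ∀ z ∈ Z, t0 ≤ z := fun z hz => (min_le_left _ _).trans (Finset.min'_le _ _ hz)
  have hb : b = 0 := by
    refine zero_of_card b P h1 (by omega) h3 (Z.image (fun z => (z - t0).toNat)) ?_ ?_
    · intro m hm
      rw [Finset.mem_image] at hm
      obtain ⟨z, hz, rfl⟩ := hm
      rw [← h4]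
      have h5 : s + T * t0 + T * (((z - t0).toNat : ℕ) : ℤ) = s + T * z := by
        rw [Int.toNat_of_nonneg (by have := hle z hz; omega)]
        ring
      rw [h5]
      exact hZ z hz
    · rw [Finset.card_image_of_injOn, h2]
      · exact hc
      · intro x hx y hy hxy
        have e1 := hle x hx
        have e2 := hle y hy
        simp only at hxy
        omega
  have h5 := h4 (t - t0).toNat
  have h6 : s + T * t0 + T * (((t - t0).toNat : ℕ) : ℤ) = s + T * t := by
    rw [Int.toNat_of_nonneg (by have := min_le_right (Z.min' hne) t; omega)]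
    ring
  rw [h6, hb] at h5
  rw [h5]
  simp [ser]

end Q99.SML
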