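import Pool.Agent.Q99.SML.Rep
import Pool.Agent.Q99.SML.Mat
import Pool.Agent.Q99.SML.Box

/-!
# Uniform Skolem-Mahler-Lech theorem for Jones polynomials
-/

set_option autoImplicit false

open Finset LaurentPolynomial Pool.Agent.H891R2.Jones Pool.Agent.W639.RB Matrix

namespace Q99.SML

theorem card_Ix (m : ℕ) : Fintype.card (Ix m) = (2 * m).factorial / m.factorial := by
  have h1 : Fintype.card (Ix m) * m.factorial = (2 * m).factorial := by
    rw [← card_Mt m, Fintype.card_prod, Fintype.card_fun, Fintype.card_bool, Fintype.card_fin,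
      mul_assoc]
  rw [← h1, Nat.mul_div_cancel _ (Nat.factorial_pos m)]

theorem line {m r k : ℕ} (hm : 0 < m) (O : Fin r → Outer m) (w u : Fin r → Fin k → Word)
    (c : Fin r → ℤ[T;T⁻¹]) (g : ℤ[T;T⁻¹]) (P : ℕ) (n : Fin k → ℤ) (j : Fin k)
    (hP : ∀ i, wperm m (w i j) ^ P = 1) (s : ℤ) (Z : Finset ℤ)
    (hZ : ∀ z ∈ Z, ∑ i, c i * (family (O i) (w i) (u i)
      (Function.update n j (s + P * z))).close.fPoly = g)
    (hc : r * ((2 * m).factorial / m.factorial) + 1 ≤ Z.card) (z : ℤ) :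
    ∑ i, c i * (family (O i) (w i) (u i) (Function.update n j (s + P * z))).close.fPoly = g := by
  classical
  obtain ⟨p, hpr, hp⟩ := Nat.exists_infinite_primes (r * ((2 * m).factorial / m.factorial) + 2)
  have : Fact (Nat.Prime p) := ⟨hp⟩
  obtain ⟨a, ha, hmod⟩ := exists_embedding p
  let e := LinearMap.toMatrixAlgEquiv' (R := ℤ_[p]) (n := Ix m)
  have h2 : ∀ f : Module.End ℤ_[p] (Ix m → ℤ_[p]), ∀ u : Ix m → ℤ_[p], (e f) *ᵥ u = f u := by
    intro f u
    exact LinearMap.toMatrix'_mulVec f u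
  choose X Y hXY using fun i => VU_update (m := m) a k (w i) (u i) n j
  let M : Fin r → (Matrix (Ix m) (Ix m) ℤ_[p])ˣ := fun i =>
    Units.map (e : Module.End ℤ_[p] (Ix m → ℤ_[p]) →* Matrix (Ix m) (Ix m) ℤ_[p])
      (WU a (w i j))
  let l : Fin r → Ix m → ℤ_[p] := fun i => spec a (c i) • (lam m ℤ_[p] ᵥ* e (X i).1)
  let v : Fin r → Ix m → ℤ_[p] := fun i => (Y i).1 (gam a (O i))
  have key : ∀ z : ℤ, useq M l v (spec a g) z =
      spec a (∑ i, c i * (family (O i) (w i) (u i) (Function.update n j z)).close.fPoly - g) := by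
    intro z
    unfold useq
    rw [map_sub, map_sum]
    congr 1
    refine Finset.sum_congr rfl fun i _ => ?_
    rw [map_mul, ← lam_gam hm, gam_family hm, hXY]
    have h1 : ((M i ^ z : (Matrix (Ix m) (Ix m) ℤ_[p])ˣ) : Matrix (Ix m) (Ix m) ℤ_[p]) =
        e (WU a (w i j) ^ z : (Module.End ℤ_[p] (Ix m → ℤ_[p]))ˣ).1 := by
      have : M i ^ z = Units.map (e : Module.End ℤ_[p] (Ix m → ℤ_[p]) →*
        Matrix (Ix m) (Ix m) ℤ_[p]) (WU a (w i j) ^ z) := by
        rw [map_zpow]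
      rw [this]
      rfl
    rw [h1, h2]
    show (spec a (c i) • (lam m ℤ_[p] ᵥ* e (X i).1)) ⬝ᵥ _ = _
    rw [smul_dotProduct, smul_eq_mul, ← Matrix.dotProduct_mulVec, h2, Units.val_mul, Units.val_mul]
    rfl
  have hiff : ∀ z : ℤ, useq M l v (spec a g) z = 0 ↔
      ∑ i, c i * (family (O i) (w i) (u i) (Function.update n j z)).close.fPoly = g := by
    intro z
    rw [key, map_eq_zero_iff _ ha, sub_eq_zero]
  have hT : ∀ i, ∃ B : Matrix (Ix m) (Ix m) ℤ_[p],
      ((M i ^ P : (Matrix (Ix m) (Ix m) ℤ_[p])ˣ) : Matrix (Ix m) (Ix m) ℤ_[p]) =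
        1 + (p : ℤ_[p]) • B := by
    intro i
    apply exists_one_add
    intro x y
    have h1 : ((M i ^ P : (Matrix (Ix m) (Ix m) ℤ_[p])ˣ) : Matrix (Ix m) (Ix m) ℤ_[p]) =
        e (WU a (w i j) ^ P : (Module.End ℤ_[p] (Ix m → ℤ_[p]))ˣ).1 := by
      have : M i ^ P = Units.map (e : Module.End ℤ_[p] (Ix m → ℤ_[p]) →*
        Matrix (Ix m) (Ix m) ℤ_[p]) (WU a (w i j) ^ P) := by
        rw [map_pow]
      rw [this]
      rfl
    have h3 : e (WU a (w i j) ^ P : (Module.End ℤ_[p] (Ix m → ℤ_[p]))ˣ).1 x y =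
        (WU a (w i j) ^ P : (Module.End ℤ_[p] (Ix m → ℤ_[p]))ˣ).1 (Pi.single y 1) x := by
      rw [← h2, Matrix.mulVec_single_one]
      rfl
    have h4 := congrFun (WU_pow_map (m := m) (PadicInt.toZMod (p := p)) a (w i j) P
      (Pi.single y 1)) x
    have h5 : Units.map ((PadicInt.toZMod (p := p) : ℤ_[p] →+* ZMod p) : ℤ_[p] →* ZMod p) a = 1 := by
      apply Units.ext
      exact hmod
    rw [h5, WU_pow_one (w i j) P (hP i)] at h4
    rw [h1, h3, h4]
    show PadicInt.toZMod ((Pi.single y 1 : Ix m → ℤ_[p]) x) = _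
    rw [Matrix.one_apply, Pi.single_apply]
  rw [← hiff]
  exact class_all (by rw [card_Ix]; omega) M l v (spec a g) P hT s Z
    (fun z hz => (hiff _).2 (hZ z hz)) (by rw [card_Ix]; exact hc) z

theorem main {m r k : ℕ} (hm : 0 < m) (O : Fin r → Outer m) (w u : Fin r → Fin k → Word)
    (c : Fin r → ℤ[T;T⁻¹]) (g : ℤ[T;T⁻¹]) (P : ℕ) (hpos : 0 < P)
    (hP : ∀ i j, wperm m (w i j) ^ P = 1) (A : Fin k → Finset ℤ) (Bad : Finset (Fin k → ℤ))
    (hBad : ∀ n ∈ Bad, (∀ j, n j ∈ A j) ∧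
      ∑ i, c i * (family (O i) (w i) (u i) n).close.fPoly = g ∧
      ∃ t : Fin k → ℤ, ¬ ∑ i, c i * (family (O i) (w i) (u i) (n + (P : ℤ) • t)).close.fPoly = g) :
    Bad.card ≤ r * ((2 * m).factorial / m.factorial) * P * ∑ j, ∏ i ∈ univ.erase j, (A i).card := by
  rw [← faces_eq]
  exact box_count P hpos (r * ((2 * m).factorial / m.factorial)) k
    (fun n => ∑ i, c i * (family (O i) (w i) (u i) n).close.fPoly = g)
    (fun n j s Z hZ hc z => line hm O w u c g P n j (fun i => hP i j) s Z hZ hc z) A Bad hBad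

end Q99.SML
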