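import Pool.Agent.H891R2.Jones.Final

/-!
# Filling the box by perfect matchings of its end points

A perfect matching is a fixed point free involution `f` of the `2 m` end points of the box; `fill O f` is
the diagram in which the box is filled by arcs joining matched end points.  Drawing a crossing in the box
acts on the brackets of all the fillings by one and the same matrix.
-/

set_option autoImplicit false

open Finset LaurentPolynomial Pool.Agent.H891R2.Jones

namespace Q99.SML

variable {m N : ℕ}

/-- the end points of the box (`inl`: lower, `inr`: upper) -/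
abbrev Pt (m : ℕ) : Type := Fin m ⊕ Fin m

/-- perfect matchings -/
abbrev Mt (m : ℕ) : Type := {f : Equiv.Perm (Pt m) // f * f = 1 ∧ ∀ a, f a ≠ a}

theorem Mt.inv (f : Mt m) (a : Pt m) : f.1 (f.1 a) = a := by
  have := congrArg (fun e : Equiv.Perm (Pt m) => e a) f.2.1
  exact this

/-- the effect of a cup and cap on a matching -/
def tau (p q : Fin m) (f : Mt m) : Mt m :=
  ⟨Equiv.swap (.inl q) (f.1 (.inl p)) * f.1 * Equiv.swap (.inl q) (f.1 (.inl p)), by
    constructor
    · calc _ = Equiv.swap (.inl q) (f.1 (.inl p)) * f.1 * (Equiv.swap (.inl q) (f.1 (.inl p)) *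
            Equiv.swap (.inl q) (f.1 (.inl p))) * f.1 * Equiv.swap (.inl q) (f.1 (.inl p)) := by
            simp only [mul_assoc]
        _ = 1 := by
          rw [Equiv.swap_mul_self, mul_one, mul_assoc (Equiv.swap _ _) f.1 f.1, f.2.1, mul_one,
            Equiv.swap_mul_self]
    · intro a h
      apply f.2.2 (Equiv.swap (.inl q) (f.1 (.inl p)) a)
      have h1 := congrArg (Equiv.swap (.inl q) (f.1 (.inl p))) h
      rw [Equiv.Perm.mul_apply, Equiv.Perm.mul_apply, Equiv.swap_apply_self] at h1
      exact h1⟩

/-- the number of closed components split off -/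
def bb (p q : Fin m) (f : Mt m) : ℕ := if f.1 (.inl p) = .inl q then 1 else 0

/-- compatibility of a colouring of the end points with a matching -/
def compat (f : Mt m) (z : Pt m → Fin N) : Prop := ∀ a, z (f.1 a) = z a

noncomputable def gr (N : ℕ) (f : Mt m) : (Fin m → Fin N) → ((Fin m → Fin N) → ℂ) :=
  fun x y => ind (compat f (Sum.elim x y))

theorem elim_upd_out (x y : Fin m → Fin N) (p q : Fin m) (c : Fin N) (a : Pt m)
    (h1 : a ≠ .inl p) (h2 : a ≠ .inl q) : Sum.elim (upd x p q c) y a = Sum.elim x y a := by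
  rcases a with j | j
  · simp only [Sum.elim_inl]
    exact upd_other x c (fun e => h1 (by rw [e])) (fun e => h2 (by rw [e]))
  · rfl

section tau_apply

variable {p q : Fin m} (hpq : p ≠ q) (f : Mt m)

theorem tau_of_eq (h : f.1 (.inl p) = .inl q) : tau p q f = f := by
  apply Subtype.ext
  show Equiv.swap (.inl q) (f.1 (.inl p)) * f.1 * Equiv.swap (.inl q) (f.1 (.inl p)) = f.1
  rw [h, Equiv.swap_self]
  rfl

include hpq in
theorem tau_p : (tau p q f).1 (.inl p) = .inl q := by
  unfold tau
  rw [Equiv.Perm.mul_apply, Equiv.Perm.mul_apply,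
    Equiv.swap_apply_of_ne_of_ne (fun h => hpq (Sum.inl.inj h)) (f.2.2 _).symm,
    Equiv.swap_apply_right]

include hpq in
theorem tau_q : (tau p q f).1 (.inl q) = .inl p := by
  have h := (tau p q f).inv (.inl p)
  rwa [tau_p hpq] at h

include hpq in
theorem tau_fp : (tau p q f).1 (f.1 (.inl p)) = f.1 (.inl q) := by
  unfold tau
  rw [Equiv.Perm.mul_apply, Equiv.Perm.mul_apply, Equiv.swap_apply_right,
    Equiv.swap_apply_of_ne_of_ne (f.2.2 _)]
  intro h
  exact hpq (Sum.inl.inj (f.1.injective h)).symm

include hpq in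
theorem tau_fq : (tau p q f).1 (f.1 (.inl q)) = f.1 (.inl p) := by
  have h := (tau p q f).inv (f.1 (.inl p))
  rwa [tau_fp hpq f] at h

theorem tau_other (a : Pt m) (h1 : a ≠ .inl p) (h2 : a ≠ .inl q) (h3 : a ≠ f.1 (.inl p))
    (h4 : a ≠ f.1 (.inl q)) : (tau p q f).1 a = f.1 a := by
  unfold tau
  rw [Equiv.Perm.mul_apply, Equiv.Perm.mul_apply, Equiv.swap_apply_of_ne_of_ne h2 h3,
    Equiv.swap_apply_of_ne_of_ne]
  · intro h
    apply h4
    rw [← h, f.inv]
  · intro h
    exact h1 (f.1.injective h)

end tau_apply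

theorem EE_gr {p q : Fin m} (hpq : p ≠ q) (f : Mt m) :
    EE p q (gr N f) = ((N : ℂ) ^ (bb p q f)) • gr N (tau p q f) := by
  classical
  funext x y
  rw [EE_apply, Pi.smul_apply, Pi.smul_apply, smul_eq_mul]
  have hup : ∀ c : Fin N, Sum.elim (upd x p q c) y (.inl p) = c := fun c => upd_left x p q c
  have huq : ∀ c : Fin N, Sum.elim (upd x p q c) y (.inl q) = c := fun c => upd_right x p q c
  by_cases hx : x p = x q
  · rw [if_pos hx, Finset.sum_apply]
    have hz : Sum.elim x y (.inl p) = Sum.elim x y (.inl q) := hx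
    by_cases h : f.1 (.inl p) = .inl q
    · have hb : bb p q f = 1 := if_pos h
      have h' : f.1 (.inl q) = .inl p := by rw [← h, f.inv]
      rw [hb, pow_one, tau_of_eq f h]
      have key : ∀ c, gr N f (upd x p q c) y = gr N f x y := by
        intro c
        unfold gr
        apply ind_congr
        have hout : ∀ a, a ≠ .inl p → a ≠ .inl q → f.1 a ≠ .inl p ∧ f.1 a ≠ .inl q := by
          intro a h1 h2
          refine ⟨fun e => h2 ?_, fun e => h1 ?_⟩
          · rw [← f.inv a, e, h]
          · rw [← f.inv a, e, h']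
        constructor
        · intro hc a
          by_cases h1 : a = .inl p
          · rw [h1, h]; exact hz.symm
          by_cases h2 : a = .inl q
          · rw [h2, h']; exact hz
          have h3 := hc a
          obtain ⟨h4, h5⟩ := hout a h1 h2
          rwa [elim_upd_out x y p q c a h1 h2, elim_upd_out x y p q c _ h4 h5] at h3
        · intro hc a
          by_cases h1 : a = .inl p
          · rw [h1, h, hup, huq]
          by_cases h2 : a = .inl q
          · rw [h2, h', hup, huq]
          obtain ⟨h4, h5⟩ := hout a h1 h2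
          rw [elim_upd_out x y p q c a h1 h2, elim_upd_out x y p q c _ h4 h5]
          exact hc a
      simp only [key]
      rw [Finset.sum_const, Finset.card_univ, Fintype.card_fin, nsmul_eq_mul]
    · have hb : bb p q f = 0 := if_neg h
      rw [hb, pow_zero, one_mul]
      have hX1 : f.1 (.inl p) ≠ .inl p := f.2.2 _
      have hY1 : f.1 (.inl q) ≠ .inl q := f.2.2 _
      have hY2 : f.1 (.inl q) ≠ .inl p := fun e => h (by rw [← e, f.inv])
      have key : ∀ c, gr N f (upd x p q c) y =
          if c = Sum.elim x y (f.1 (.inl p)) then gr N (tau p q f) x y else 0 := by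
        intro c
        have h1 : compat f (Sum.elim (upd x p q c) y) ↔
            (c = Sum.elim x y (f.1 (.inl p)) ∧ compat (tau p q f) (Sum.elim x y)) := by
          constructor
          · intro hc
            have e1 : Sum.elim x y (f.1 (.inl p)) = c := by
              have := hc (.inl p)
              rwa [elim_upd_out x y p q c _ hX1 h, hup] at this
            have e2 : Sum.elim x y (f.1 (.inl q)) = c := by
              have := hc (.inl q)
              rwa [elim_upd_out x y p q c _ hY2 hY1, huq] at this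
            refine ⟨e1.symm, fun a => ?_⟩
            by_cases h1 : a = .inl p
            · rw [h1, tau_p hpq]; exact hz.symm
            by_cases h2 : a = .inl q
            · rw [h2, tau_q hpq]; exact hz
            by_cases h3 : a = f.1 (.inl p)
            · rw [h3, tau_fp hpq f, e1, e2]
            by_cases h4 : a = f.1 (.inl q)
            · rw [h4, tau_fq hpq f, e1, e2]
            rw [tau_other f a h1 h2 h3 h4]
            have h5 := hc a
            rwa [elim_upd_out x y p q c a h1 h2, elim_upd_out x y p q c (f.1 a)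
              (fun e => h3 (by rw [← e, f.inv])) (fun e => h4 (by rw [← e, f.inv]))] at h5
          · rintro ⟨hc, ht⟩ a
            have e2 : Sum.elim x y (f.1 (.inl q)) = c := by
              have := ht (f.1 (.inl p))
              rwa [tau_fp hpq f, ← hc] at this
            by_cases h1 : a = .inl p
            · rw [h1, elim_upd_out x y p q c _ hX1 h, hup, hc]
            by_cases h2 : a = .inl q
            · rw [h2, elim_upd_out x y p q c _ hY2 hY1, huq, e2]
            by_cases h3 : a = f.1 (.inl p)
            · rw [h3, f.inv, hup, elim_upd_out x y p q c _ hX1 h, hc]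
            by_cases h4 : a = f.1 (.inl q)
            · rw [h4, f.inv, huq, elim_upd_out x y p q c _ hY2 hY1, e2]
            rw [elim_upd_out x y p q c a h1 h2, elim_upd_out x y p q c (f.1 a)
              (fun e => h3 (by rw [← e, f.inv])) (fun e => h4 (by rw [← e, f.inv]))]
            have h5 := ht a
            rwa [tau_other f a h1 h2 h3 h4] at h5
        unfold gr
        rw [ind_congr h1]
        by_cases hc : c = Sum.elim x y (f.1 (.inl p))
        · rw [if_pos hc]; exact ind_congr (by simp [hc])
        · rw [if_neg hc]; exact ind_neg (fun h => hc h.1)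
      simp only [key]
      rw [Finset.sum_ite_eq' Finset.univ, if_pos (Finset.mem_univ _)]
  · rw [if_neg hx]
    have h1 : gr N (tau p q f) x y = 0 := ind_neg (fun h => hx (by
      have h2 := h (.inl p)
      rw [tau_p hpq] at h2
      exact h2.symm))
    rw [h1, mul_zero]
    rfl

/-- the functions determine the matchings -/
theorem gr_inj {b b' : ℕ} {f f' : Mt m}
    (h : ((2 : ℕ) : ℂ) ^ b • gr 2 f = ((2 : ℕ) : ℂ) ^ b' • gr 2 f') : b = b' ∧ f = f' := by
  classical
  have h1 := congrFun (congrFun h (fun _ => 0)) (fun _ => 0)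
  have h2 : ∀ f : Mt m, gr 2 f (fun _ => 0) (fun _ => 0) = 1 := by
    intro f
    apply ind_pos
    have h3 : ∀ a : Pt m, Sum.elim (fun _ : Fin m => (0 : Fin 2)) (fun _ => 0) a = 0 := by
      rintro (a | a) <;> rfl
    intro a
    rw [h3, h3]
  rw [Pi.smul_apply, Pi.smul_apply, Pi.smul_apply, Pi.smul_apply, h2, h2, smul_eq_mul, smul_eq_mul,
    mul_one, mul_one] at h1
  have hb : b = b' := by
    have h3 : (2 : ℕ) ^ b = 2 ^ b' := by exact_mod_cast h1
    exact Nat.pow_right_injective le_rfl h3
  refine ⟨hb, ?_⟩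
  subst hb
  have h4 : gr 2 f = gr 2 f' := smul_right_injective _ (pow_ne_zero b (by norm_num)) h
  apply Subtype.ext
  apply Equiv.ext
  intro a
  let z : Pt m → Fin 2 := fun c => if c = a ∨ c = f.1 a then 1 else 0
  have h5 := congrFun (congrFun h4 (fun j => z (.inl j))) (fun j => z (.inr j))
  have h6 : (Sum.elim (fun j => z (.inl j)) (fun j => z (.inr j)) : Pt m → Fin 2) = z := by
    funext c; rcases c with c | c <;> rfl
  unfold gr at h5
  rw [h6] at h5
  have h7 : compat f z := by
    intro c
    have : (f.1 c = a ∨ f.1 c = f.1 a) ↔ (c = a ∨ c = f.1 a) := by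
      constructor
      · rintro (h | h)
        · right; rw [← h, f.inv]
        · left; exact f.1.injective h
      · rintro (h | h)
        · right; rw [h]
        · left; rw [h, f.inv]
    simp only [z, this]
  rw [ind_pos h7] at h5
  have h8 : compat f' z := by
    by_contra hc
    rw [ind_neg hc] at h5
    exact one_ne_zero h5
  have h9 := h8 a
  have h10 : z a = 1 := if_pos (Or.inl rfl)
  rw [h10] at h9
  by_contra hne
  have h11 : z (f'.1 a) = 0 := if_neg (by
    rintro (h | h)
    · exact f'.2.2 a h
    · exact hne h.symm)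
  rw [h11] at h9
  exact absurd h9 (by decide)

/-! ### the relations -/

/-- cup-cap at the places `i`, `i + 1` -/
def tI (i : ℕ) (h : i + 1 < m) (f : Mt m) : Mt m := tau ⟨i, Nat.lt_of_succ_lt h⟩ ⟨i + 1, h⟩ f

def bI (i : ℕ) (h : i + 1 < m) (f : Mt m) : ℕ := bb ⟨i, Nat.lt_of_succ_lt h⟩ ⟨i + 1, h⟩ f

theorem ee_gr (N : ℕ) (i : ℕ) (h : i + 1 < m) (f : Mt m) :
    ee m N ((Fin m → Fin N) → ℂ) i (gr N f) = ((N : ℂ) ^ (bI i h f)) • gr N (tI i h f) := by
  unfold ee
  rw [dif_pos h]
  exact EE_gr (by intro e; simp only [Fin.mk.injEq] at e; omega) f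

theorem rel_sq (i : ℕ) (h : i + 1 < m) (f : Mt m) :
    bI i h (tI i h f) = 1 ∧ tI i h (tI i h f) = tI i h f := by
  have h1 := (isTL_ee (W := (Fin m → Fin 2) → ℂ) m 2).sq i h
  have h2 := LinearMap.congr_fun h1 (gr 2 f)
  rw [Module.End.mul_apply, LinearMap.smul_apply, ee_gr 2 i h, map_smul, ee_gr 2 i h, smul_smul,
    smul_smul, ← pow_add, ← pow_succ'] at h2
  obtain ⟨h3, h4⟩ := gr_inj h2
  exact ⟨by omega, h4⟩

theorem rel_up (i : ℕ) (h : i + 1 + 1 < m) (f : Mt m) :
    bI i (by omega) f + bI (i + 1) h (tI i (by omega) f) +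
      bI i (by omega) (tI (i + 1) h (tI i (by omega) f)) = bI i (by omega) f ∧
    tI i (by omega) (tI (i + 1) h (tI i (by omega) f)) = tI i (by omega) f := by
  have h1 := (isTL_ee (W := (Fin m → Fin 2) → ℂ) m 2).up i h
  have h2 := LinearMap.congr_fun h1 (gr 2 f)
  rw [Module.End.mul_apply, Module.End.mul_apply, ee_gr 2 i (by omega), map_smul, ee_gr 2 (i+1) h,
    map_smul, map_smul, ee_gr 2 i (by omega), smul_smul, smul_smul, ← pow_add, ← pow_add] at h2
  exact gr_inj h2

theorem rel_down (i : ℕ) (h : i + 1 + 1 < m) (f : Mt m) :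
    bI (i + 1) h f + bI i (by omega) (tI (i + 1) h f) +
      bI (i + 1) h (tI i (by omega) (tI (i + 1) h f)) = bI (i + 1) h f ∧
    tI (i + 1) h (tI i (by omega) (tI (i + 1) h f)) = tI (i + 1) h f := by
  have h1 := (isTL_ee (W := (Fin m → Fin 2) → ℂ) m 2).down i h
  have h2 := LinearMap.congr_fun h1 (gr 2 f)
  rw [Module.End.mul_apply, Module.End.mul_apply, ee_gr 2 (i+1) h, map_smul, ee_gr 2 i (by omega),
    map_smul, map_smul, ee_gr 2 (i+1) h, smul_smul, smul_smul, ← pow_add, ← pow_add] at h2
  exact gr_inj h2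

theorem rel_far (i j : ℕ) (hj : j + 1 < m) (hij : i + 2 ≤ j) (f : Mt m) :
    bI j hj f + bI i (by omega) (tI j hj f) = bI i (by omega) f + bI j hj (tI i (by omega) f) ∧
    tI i (by omega) (tI j hj f) = tI j hj (tI i (by omega) f) := by
  have h1 := (isTL_ee (W := (Fin m → Fin 2) → ℂ) m 2).far i j hj hij
  have h2 := LinearMap.congr_fun h1 (gr 2 f)
  rw [Module.End.mul_apply, Module.End.mul_apply, ee_gr 2 j hj, map_smul, ee_gr 2 i (by omega),
    ee_gr 2 i (by omega), map_smul, ee_gr 2 j hj, smul_smul, smul_smul, ← pow_add, ← pow_add] at h2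
  exact gr_inj h2

/-! ### the diagrams -/

/-- the box is filled by arcs joining matched end points -/
noncomputable def fill (O : Outer m) (f : Mt m) : Diagram O.P where
  arcs := O.arcs ++ ((univ : Finset (Pt m)).toList.map
    (fun a => (Sum.elim O.lower O.upper (f.1 a), Sum.elim O.lower O.upper a)))
  crossings := O.crossings

theorem Z_fill (A : ℂ) (O : Outer m) (f : Mt m) :
    ∑ col : O.P → Fin N, WW A (fill O f).arcs (fill O f).crossings col =
      Zg A N O (gr N f) := by
  classical
  unfold Zg
  refine Finset.sum_congr rfl fun u _ => ?_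
  unfold WW fill
  dsimp only
  rw [arcs_prod, arcs_prod]
  have h0 : ∀ a : Pt m, u (Sum.elim O.lower O.upper a) = Sum.elim (u ∘ O.lower) (u ∘ O.upper) a := by
    rintro (a | a) <;> rfl
  have : ind (∀ z ∈ O.arcs ++ ((univ : Finset (Pt m)).toList.map
    (fun a => (Sum.elim O.lower O.upper (f.1 a), Sum.elim O.lower O.upper a))), u z.1 = u z.2) =
      ind (∀ z ∈ O.arcs, u z.1 = u z.2) * gr N f (u ∘ O.lower) (u ∘ O.upper) := by
    unfold gr
    rw [ind_mul]
    apply ind_congr
    simp only [List.mem_append, or_imp, forall_and]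
    refine and_congr Iff.rfl ?_
    constructor
    · intro H a
      have := H (Sum.elim O.lower O.upper (f.1 a), Sum.elim O.lower O.upper a)
        (List.mem_map.2 ⟨a, by simp, rfl⟩)
      rw [← h0, ← h0]
      exact this
    · intro H z hz
      rw [List.mem_map] at hz
      obtain ⟨a, _, rfl⟩ := hz
      have h1 := H a
      show u (Sum.elim O.lower O.upper (f.1 a)) = u (Sum.elim O.lower O.upper a)
      rw [h0, h0]
      exact h1
  rw [this]
  ring

theorem Zg_add' (A : ℂ) (N : ℕ) (O : Outer m) (g h : (Fin m → Fin N) → ((Fin m → Fin N) → ℂ)) :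
    Zg A N O (g + h) = Zg A N O g + Zg A N O h := by
  unfold Zg
  rw [← Finset.sum_add_distrib]
  exact Finset.sum_congr rfl fun u _ => by simp only [Pi.add_apply]; ring

theorem Zg_smul' (A : ℂ) (N : ℕ) (O : Outer m) (c : ℂ) (g : (Fin m → Fin N) → ((Fin m → Fin N) → ℂ)) :
    Zg A N O (c • g) = c * Zg A N O g := by
  unfold Zg
  rw [Finset.mul_sum]
  exact Finset.sum_congr rfl fun u _ => by simp only [Pi.smul_apply, smul_eq_mul]; ring

theorem ev_inj {f g : ℤ[T;T⁻¹]} (h : ∀ N (hN : 3 ≤ N), ev N hN f = ev N hN g) : f = g := by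
  have := eq_one_of_ev (f - g + 1) (fun N hN => by
    rw [map_add, map_sub, h N hN, sub_self, zero_add, map_one])
  have h2 : f - g = 0 := by linear_combination this
  exact sub_eq_zero.1 h2

theorem ev_fill (hm : 0 < m) (O : Outer m) (f : Mt m) (N : ℕ) (hN : 3 ≤ N) :
    (N : ℂ) * ev N hN (fill O f).bracket = Zg (Ar N) N O (gr N f) := by
  have : Nonempty O.P := ⟨O.lower ⟨0, hm⟩⟩
  rw [ev_bracket N hN, Z_fill]

/-- the straight filling -/
def strt (m : ℕ) : Mt m := ⟨Equiv.sumComm (Fin m) (Fin m), by
  constructor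
  · apply Equiv.ext
    rintro (a | a) <;> rfl
  · rintro (a | a) h
    · exact Sum.inr_ne_inl h
    · exact Sum.inl_ne_inr h⟩

theorem close_bracket (hm : 0 < m) (O : Outer m) : O.close.bracket = (fill O (strt m)).bracket := by
  apply ev_inj
  intro N hN
  have hN0 : (N : ℂ) ≠ 0 := by rw [Nat.cast_ne_zero]; omega
  apply mul_left_cancel₀ hN0
  have : Nonempty O.P := ⟨O.lower ⟨0, hm⟩⟩
  rw [ev_fill hm, ev_bracket N hN, Z_close]
  congr 1
  funext x y
  apply ind_congr
  constructor
  · rintro rfl a
    rcases a with a | a <;> rfl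
  · intro h
    funext j
    exact h (.inr j)

/-- the two signs -/
def sgb (b : Bool) : ℤ := if b then 1 else -1

theorem push_fill (hm : 0 < m) (O : Outer m) (b : Bool) (i : ℕ) (h : i + 1 < m) (f : Mt m) :
    (fill (O.push b i) f).bracket = T (sgb b) * (fill O f).bracket +
      T (- sgb b) * ((-T 2 - T (-2)) ^ (bI i h f) * (fill O (tI i h f)).bracket) := by
  apply ev_inj
  intro N hN
  have hN0 : (N : ℂ) ≠ 0 := by rw [Nat.cast_ne_zero]; omega
  apply mul_left_cancel₀ hN0
  have hE := ee_gr N i h f
  have hd : ev N hN (-T 2 - T (-2)) = (N : ℂ) := by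
    rw [map_sub, map_neg, ev_T, ev_T, Ar_d N hN, inv_pow]
    rfl
  have hsg : ∀ A : ℂ, Zg (Ar N) N O (sg A (ee m N ((Fin m → Fin N) → ℂ)) i (gr N f)) =
      A * Zg (Ar N) N O (gr N f) + A⁻¹ * ((N : ℂ) ^ (bI i h f) *
        Zg (Ar N) N O (gr N (tI i h f))) := by
    intro A
    have : sg A (ee m N ((Fin m → Fin N) → ℂ)) i (gr N f) =
      A • gr N f + A⁻¹ • (ee m N ((Fin m → Fin N) → ℂ) i (gr N f)) := rfl
    rw [this, hE, Zg_add', Zg_smul', Zg_smul', Zg_smul']
  rw [ev_fill hm, map_add, map_mul, map_mul, map_mul, map_pow, hd, ev_T, ev_T]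
  have h3 : ∀ f' : Mt m, Zg (Ar N) N O (gr N f') = (N : ℂ) * ev N hN (fill O f').bracket :=
    fun f' => (ev_fill hm O f' N hN).symm
  cases b
  · rw [Zg_push_false O i h, hsg, h3, h3, sgb]
    simp only [Bool.false_eq_true, if_false, neg_neg, zpow_one, zpow_neg, inv_inv]
    ring
  · rw [Zg_push_true O i h, hsg, h3, h3, sgb]
    simp only [if_true, zpow_one, zpow_neg]
    ring

/-- the number of matchings -/
theorem card_Mt (m : ℕ) : Fintype.card (Mt m) * (2 ^ m * m.factorial) = (2 * m).factorial := by
  classical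
  have h1 : Fintype.card (Mt m) =
      #{g : Equiv.Perm (Pt m) | g.cycleType = Multiset.replicate m 2} := by
    rw [Fintype.card_subtype]
    congr 1
    ext g
    simp only [Finset.mem_filter, Finset.mem_univ, true_and]
    constructor
    · rintro ⟨h1, h2⟩
      have : Fact (Nat.Prime 2) := ⟨Nat.prime_two⟩
      have h3 := Equiv.Perm.cycleType_of_pow_prime_eq_one (p := 2) (σ := g) (by rw [pow_two, h1])
      have h4 : g.support = Finset.univ := by
        ext a
        simp [h2 a]
      have h5 := Equiv.Perm.sum_cycleType g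
      rw [h4, Finset.card_univ, Fintype.card_sum, Fintype.card_fin, h3, Multiset.sum_replicate] at h5
      have h6 : Multiset.card g.cycleType = m := by
        simp only [smul_eq_mul] at h5; omega
      rw [h3, h6]
    · intro h
      have hcard : g.support.card = 2 * m := by
        rw [← Equiv.Perm.sum_cycleType, h, Multiset.sum_replicate, smul_eq_mul, mul_comm]
      constructor
      · have h5 : orderOf g ∣ 2 := by
          rw [← Equiv.Perm.lcm_cycleType, h, Multiset.lcm_dvd]
          intro b hb
          rw [Multiset.eq_of_mem_replicate hb]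
        rw [← pow_two]
        exact orderOf_dvd_iff_pow_eq_one.1 h5
      · intro a
        have h6 : g.support = Finset.univ := by
          apply Finset.eq_univ_of_card
          rw [hcard, Fintype.card_sum, Fintype.card_fin]; ring
        rw [← Equiv.Perm.mem_support, h6]
        exact Finset.mem_univ _
  have h2 := Equiv.Perm.card_of_cycleType_mul_eq (Pt m) (Multiset.replicate m 2)
  rw [h1]
  rw [Multiset.sum_replicate, Multiset.prod_replicate, Fintype.card_sum, Fintype.card_fin] at h2
  rcases Nat.eq_zero_or_pos m with rfl | hm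
  · simpa using h2
  · have h3 : (Multiset.replicate m 2).toFinset = {2} := by
      rw [Multiset.toFinset_replicate, if_neg (by omega)]
    rw [h3, Finset.prod_singleton, Multiset.count_replicate_self, if_pos, smul_eq_mul] at h2
    · rw [show m + m - m * 2 = 0 by omega, Nat.factorial_zero, one_mul] at h2
      rw [h2]
      congr 1
      ring
    · refine ⟨by rw [smul_eq_mul]; omega, fun a ha => ?_⟩
      rw [Multiset.eq_of_mem_replicate ha]

end Q99.SML
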