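import Mathlib

/-!
# Zeros of interpolation series with `p`-adic integer coefficients

If `b` satisfies a monic linear recurrence of order `D < p` over `ℤ_[p]` and
`ser b m = ∑ C(m,k) p^k b_k` vanishes for `D` natural numbers `m`, then `b = 0`.  The proof of
`strass` follows `Pool.Agent.H853R2.Skolem.Strass` of the starting library (there for `ℤ`).
-/

set_option autoImplicit false

open Polynomial Finset

namespace Q99.SML

variable {p : ℕ} [hp : Fact p.Prime]

/-- The interpolation series `∑ C(m,k) p^k b_k`. -/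
noncomputable def ser (b : ℕ → ℤ_[p]) (m : ℕ) : ℤ_[p] :=
  ∑ k ∈ Finset.range (m + 1), (m.choose k : ℤ_[p]) * (p : ℤ_[p]) ^ k * b k

theorem ser_eq (b : ℕ → ℤ_[p]) (m N : ℕ) (h : m ≤ N) :
    ser b m = ∑ k ∈ Finset.range (N + 1), (m.choose k : ℤ_[p]) * (p : ℤ_[p]) ^ k * b k := by
  unfold ser
  apply Finset.sum_subset
  · intro k hk; simp at hk ⊢; omega
  · intro k _ hk
    simp at hk
    rw [Nat.choose_eq_zero_of_lt (by omega)]
    simp

/-- The polynomial `N! * ∑_{k≤N} C(x,k) p^k b_k`. -/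
noncomputable def F (b : ℕ → ℤ_[p]) (N : ℕ) (s : Finset ℕ) : ℤ_[p][X] :=
  ∑ k ∈ s, C (((N.factorial / k.factorial : ℕ) : ℤ_[p]) * (p : ℤ_[p]) ^ k * b k) *
    descPochhammer ℤ_[p] k

theorem F_eval (b : ℕ → ℤ_[p]) (N m : ℕ) (h : m ≤ N) :
    (F b N (Finset.range (N + 1))).eval (m : ℤ_[p]) = (N.factorial : ℤ_[p]) * ser b m := by
  rw [ser_eq b m N h, F, Polynomial.eval_finsetSum, Finset.mul_sum]
  apply Finset.sum_congr rfl
  intro k hk
  simp only [Finset.mem_range] at hk
  rw [Polynomial.eval_mul, Polynomial.eval_C, descPochhammer_eval_eq_descFactorial,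
    Nat.descFactorial_eq_factorial_mul_choose]
  have hk' : k.factorial ∣ N.factorial := Nat.factorial_dvd_factorial (by omega)
  obtain ⟨q, hq⟩ := hk'
  have : N.factorial / k.factorial = q := by
    rw [hq]; exact Nat.mul_div_cancel_left _ (Nat.factorial_pos k)
  rw [this, hq]
  push_cast
  ring

omit hp in
theorem pow_dvd_coef (hp : p.Prime) (N k J : ℕ) (hk : k ≤ N) (hJ : J ≤ k) (hJp : J < p) :
    p ^ (padicValNat p N.factorial + J) ∣ (N.factorial / k.factorial) * p ^ k := by
  have := Fact.mk hp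
  have hd : k.factorial ∣ N.factorial := Nat.factorial_dvd_factorial hk
  have hpos : N.factorial / k.factorial ≠ 0 := by
    have := Nat.div_pos (Nat.le_of_dvd (Nat.factorial_pos N) hd) (Nat.factorial_pos k)
    omega
  rw [padicValNat_dvd_iff_le (by
    apply mul_ne_zero hpos
    exact pow_ne_zero _ hp.ne_zero)]
  rw [padicValNat.mul hpos (pow_ne_zero _ hp.ne_zero), padicValNat.prime_pow,
    padicValNat.div_of_dvd hd]
  have h1 : padicValNat p k.factorial + J ≤ k := by
    rcases Nat.eq_zero_or_pos (padicValNat p k.factorial) with h0 | h0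
    · omega
    · have hk0 : k ≠ 0 := by
        rintro rfl
        simp at h0
      have h2 := sub_one_mul_padicValNat_factorial_lt_of_ne_zero (p := p) hk0
      have hp2 := hp.two_le
      obtain ⟨v, hv⟩ : ∃ v, padicValNat p k.factorial = v + 1 := ⟨_, (Nat.succ_pred_eq_of_pos h0).symm⟩
      obtain ⟨q, rfl⟩ : ∃ q, p = q + 1 := ⟨p - 1, by omega⟩
      rw [hv] at h2 ⊢
      simp only [Nat.add_sub_cancel] at h2
      have h3 : v ≤ q * v := Nat.le_mul_of_pos_left _ (by omega)
      have h4 : q * (v + 1) = q * v + q := by ring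
      omega
  have h2 : padicValNat p k.factorial ≤ padicValNat p N.factorial := by
    rw [← padicValNat_dvd_iff_le (Nat.factorial_ne_zero N)]
    exact pow_padicValNat_dvd.trans hd
  omega

theorem prod_dvd (P : ℤ_[p][X]) (Z : Finset ℕ) (h : ∀ z ∈ Z, P.eval (z : ℤ_[p]) = 0) :
    (∏ z ∈ Z, (X - C (z : ℤ_[p]))) ∣ P := by
  classical
  by_cases hP : P = 0
  · rw [hP]; exact dvd_zero _
  have h1 : (∏ z ∈ Z, (X - C (z : ℤ_[p]))) =
      ((Z.image (fun z : ℕ => (z : ℤ_[p]))).val.map (fun a => X - C a)).prod := by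
    rw [← Finset.prod_eq_multiset_prod]
    rw [Finset.prod_image]
    intro a _ b _ hab
    simpa using hab
  rw [h1, Multiset.prod_X_sub_C_dvd_iff_le_roots hP]
  rw [Multiset.le_iff_subset (Finset.nodup _)]
  intro a ha
  rw [Finset.mem_val, Finset.mem_image] at ha
  obtain ⟨z, hz, rfl⟩ := ha
  rw [mem_roots hP]
  exact h z hz

theorem p_ne : (p : ℤ_[p]) ≠ 0 := by exact_mod_cast hp.out.ne_zero

theorem strass (b : ℕ → ℤ_[p]) (Z : Finset ℕ) (hJp : Z.card < p)
    (hZ : ∀ m ∈ Z, ser b m = 0) (m : ℕ) :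
    (p : ℤ_[p]) ^ Z.card ∣ ser b m := by
  classical
  set e := Z.card with he
  set N := max m (Z.sup id) with hN
  have hmN : m ≤ N := le_max_left _ _
  have hZN : ∀ z ∈ Z, z ≤ N := fun z hz => (Finset.le_sup (f := id) hz).trans (le_max_right _ _)
  set J := Z.card with hJ
  set W : ℤ_[p][X] := ∏ z ∈ Z, (X - C (z : ℤ_[p])) with hW
  have hWm : W.Monic := monic_prod_of_monic _ _ (fun z _ => monic_X_sub_C _)
  have hWdeg : W.natDegree = J := by
    rw [hW, natDegree_prod_of_monic _ _ (fun z _ => monic_X_sub_C _)]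
    simp only [natDegree_X_sub_C, Finset.sum_const, smul_eq_mul, mul_one, hJ]
  set Fu := F b N (Finset.range (N + 1)) with hFu
  have hroot : ∀ z ∈ Z, Fu.eval (z : ℤ_[p]) = 0 := by
    intro z hz
    rw [hFu, F_eval b N z (hZN z hz), hZ z hz, mul_zero]
  have hdvd : W ∣ Fu := prod_dvd _ _ hroot
  set v := padicValNat p N.factorial with hv
  set lo := F b N ((Finset.range (N + 1)).filter (fun k => k < J)) with hlo
  set hi := F b N ((Finset.range (N + 1)).filter (fun k => ¬ k < J)) with hhi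
  have hsplit : Fu = lo + hi := by
    rw [hFu, hlo, hhi, F, F, F, Finset.sum_filter_add_sum_filter_not]
  have hhid : ∃ G : ℤ_[p][X], hi = C ((p : ℤ_[p]) ^ (v + e)) * G := by
    suffices h : C ((p : ℤ_[p]) ^ (v + e)) ∣ hi by
      obtain ⟨G, hG⟩ := h; exact ⟨G, hG⟩
    rw [hhi, F]
    apply Finset.dvd_sum
    intro k hk
    rw [Finset.mem_filter, Finset.mem_range, not_lt] at hk
    apply Dvd.dvd.mul_right
    apply (C : ℤ_[p] →+* ℤ_[p][X]).map_dvd
    apply Dvd.dvd.mul_right
    have h1 := pow_dvd_coef hp.out N k e (by omega) (by omega) hJp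
    have h2 := Nat.cast_dvd_cast (α := ℤ_[p]) h1
    push_cast at h2 ⊢
    exact h2
  obtain ⟨G, hG⟩ := hhid
  have hWJ : W.degree = (J : WithBot ℕ) := by
    rw [degree_eq_natDegree hWm.ne_zero, hWdeg]
  have hlo0 : lo.degree < W.degree := by
    rw [hWJ, hlo, F]
    apply lt_of_le_of_lt (degree_sum_le _ _)
    rw [Finset.sup_lt_iff (by exact WithBot.bot_lt_coe _)]
    intro k hk
    rw [Finset.mem_filter] at hk
    refine lt_of_le_of_lt (degree_mul_le _ _) ?_
    have h1 : (C (((N.factorial / k.factorial : ℕ) : ℤ_[p]) * (p : ℤ_[p]) ^ k * b k)).degree ≤ 0 :=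
      degree_C_le
    have h2 : (descPochhammer ℤ_[p] k).degree = (k : WithBot ℕ) := by
      rw [degree_eq_natDegree (monic_descPochhammer ℤ_[p] k).ne_zero, descPochhammer_natDegree]
    rw [h2]
    calc _ ≤ 0 + (k : WithBot ℕ) := by gcongr
      _ = (k : WithBot ℕ) := zero_add _
      _ < (J : WithBot ℕ) := by exact_mod_cast hk.2
  have hquot : Fu /ₘ W = C ((p : ℤ_[p]) ^ (v + e)) * (G /ₘ W) := by
    refine (div_modByMonic_unique (C ((p : ℤ_[p]) ^ (v + e)) * (G /ₘ W))
      (lo + C ((p : ℤ_[p]) ^ (v + e)) * (G %ₘ W)) hWm ⟨?_, ?_⟩).1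
    · rw [hsplit, hG]
      conv_rhs => rw [← modByMonic_add_div G W]
      ring
    · refine lt_of_le_of_lt (degree_add_le _ _) (max_lt hlo0 ?_)
      refine lt_of_le_of_lt (degree_mul_le _ _) ?_
      have h1 : (C ((p : ℤ_[p]) ^ (v + e))).degree ≤ 0 := degree_C_le
      calc _ ≤ 0 + (G %ₘ W).degree := by gcongr
        _ = (G %ₘ W).degree := zero_add _
        _ < _ := degree_modByMonic_lt _ hWm
  obtain ⟨Q, hQ⟩ := hdvd
  have hQ2 : Fu /ₘ W = Q := by
    rw [hQ, mul_divByMonic_cancel_left _ hWm]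
  have hfin : (N.factorial : ℤ_[p]) * ser b m =
      W.eval (m : ℤ_[p]) * ((p : ℤ_[p]) ^ (v + e) * (G /ₘ W).eval (m : ℤ_[p])) := by
    rw [← F_eval b N m hmN, ← hFu, hQ, ← hQ2, hquot]
    simp
  have hd : (p : ℤ_[p]) ^ (v + e) ∣ (N.factorial : ℤ_[p]) * ser b m := by
    rw [hfin]
    exact Dvd.dvd.mul_left (dvd_mul_right _ _) _
  obtain ⟨q, hq⟩ : p ^ v ∣ N.factorial := pow_padicValNat_dvd
  have hqp : ¬ p ∣ q := by
    intro hpq
    have h1 : p ^ (v + 1) ∣ N.factorial := by
      rw [hq, pow_succ]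
      exact Nat.mul_dvd_mul_left _ hpq
    rw [padicValNat_dvd_iff_le (Nat.factorial_ne_zero N)] at h1
    omega
  have hqu : IsUnit (q : ℤ_[p]) := by
    rw [PadicInt.isUnit_iff]
    refine le_antisymm (PadicInt.norm_le_one _) (not_lt.1 fun h => hqp ?_)
    have h2 := (PadicInt.norm_int_lt_one_iff_dvd (p := p) (q : ℤ)).1 (by simpa using h)
    exact_mod_cast h2
  rw [hq, pow_add] at hd
  push_cast at hd
  rw [mul_assoc] at hd
  have hd2 : (p : ℤ_[p]) ^ e ∣ (q : ℤ_[p]) * ser b m :=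
    (mul_dvd_mul_iff_left (pow_ne_zero _ p_ne)).1 hd
  exact (IsUnit.dvd_mul_left hqu).1 hd2

theorem dvd_coeff (b : ℕ → ℤ_[p]) (e : ℕ) (h : ∀ m, (p : ℤ_[p]) ^ e ∣ ser b m) (k : ℕ) :
    (p : ℤ_[p]) ^ e ∣ (p : ℤ_[p]) ^ k * b k := by
  induction k using Nat.strong_induction_on with
  | _ k ih =>
    have h1 := h k
    rw [ser, Finset.sum_range_succ, Nat.choose_self, Nat.cast_one, one_mul] at h1
    refine (dvd_add_right (Finset.dvd_sum fun j hj => ?_)).1 h1
    rw [mul_assoc]
    exact Dvd.dvd.mul_left (ih j (Finset.mem_range.1 hj)) _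

/-- The linear functional `X^n ↦ b n` on polynomials. -/
noncomputable def phi {R : Type*} [CommRing R] (b : ℕ → R) : R[X] →ₗ[R] R :=
  Polynomial.lsum (fun n => LinearMap.toSpanSingleton R R (b n))

theorem phi_monomial {R : Type*} [CommRing R] (b : ℕ → R) (n : ℕ) (a : R) :
    phi b (monomial n a) = a * b n := by
  simp [phi, Polynomial.lsum_apply]

theorem phi_X_pow {R : Type*} [CommRing R] (b : ℕ → R) (n : ℕ) : phi b (X ^ n) = b n := by
  rw [X_pow_eq_monomial, phi_monomial, one_mul]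

/-- `P` annihilates the sequence `b` -/
def Ann {R : Type*} [CommRing R] (P : R[X]) (b : ℕ → R) : Prop := ∀ Q : R[X], phi b (P * Q) = 0

theorem phi_add {R : Type*} [CommRing R] (b c : ℕ → R) (Q : R[X]) :
    phi (b + c) Q = phi b Q + phi c Q := by
  induction Q using Polynomial.induction_on' with
  | add P Q hP hQ => rw [map_add, map_add, map_add, hP, hQ]; ring
  | monomial n a => rw [phi_monomial, phi_monomial, phi_monomial, Pi.add_apply]; ring

theorem phi_smul {R : Type*} [CommRing R] (c : R) (b : ℕ → R) (Q : R[X]) :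
    phi (c • b) Q = c * phi b Q := by
  induction Q using Polynomial.induction_on' with
  | add P Q hP hQ => rw [map_add, map_add, hP, hQ]; ring
  | monomial n a => rw [phi_monomial, phi_monomial, Pi.smul_apply, smul_eq_mul]; ring

theorem Ann.add {R : Type*} [CommRing R] {P P' : R[X]} {b b' : ℕ → R} (h : Ann P b)
    (h' : Ann P' b') : Ann (P * P') (b + b') := by
  intro Q
  rw [phi_add, mul_assoc, h, mul_left_comm, h', add_zero]

theorem Ann.smul {R : Type*} [CommRing R] {P : R[X]} {b : ℕ → R} (h : Ann P b) (c : R) :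
    Ann P (c • b) := by
  intro Q
  rw [phi_smul, h, mul_zero]

theorem ann_low {R : Type*} [CommRing R] [Nontrivial R] (P : R[X]) (hP : P.Monic) (b : ℕ → R)
    (h : Ann P b) (x : R)
    (hx : ∀ j < P.natDegree, x ∣ b j) (k : ℕ) : x ∣ b k := by
  by_cases hP1 : P = 1
  · have := h (X ^ k)
    rw [hP1, one_mul, phi_X_pow] at this
    rw [this]; exact dvd_zero _
  have h1 : phi b (X ^ k) = phi b (X ^ k %ₘ P) := by
    conv_lhs => rw [← modByMonic_add_div (X ^ k : R[X]) P]
    rw [map_add, h, add_zero]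
  rw [← phi_X_pow b k, h1]
  have h2 : (X ^ k %ₘ P : R[X]).natDegree < P.natDegree := natDegree_modByMonic_lt _ hP hP1
  rw [(X ^ k %ₘ P : R[X]).as_sum_range' P.natDegree h2, map_sum]
  refine Finset.dvd_sum fun j hj => ?_
  rw [phi_monomial]
  exact Dvd.dvd.mul_left (hx j (Finset.mem_range.1 hj)) _

theorem eq_zero_of_pow_dvd (x : ℤ_[p]) (h : ∀ e : ℕ, (p : ℤ_[p]) ^ e ∣ x) : x = 0 := by
  by_contra hx
  have h1 := h (x.valuation + 1)
  rw [← Ideal.mem_span_singleton, PadicInt.mem_span_pow_iff_le_valuation x hx] at h1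
  omega

/-- the uniform zero estimate -/
theorem zero_of_card (b : ℕ → ℤ_[p]) (P : ℤ_[p][X]) (hP : P.Monic) (hPp : P.natDegree < p)
    (h : Ann P b) (Z0 : Finset ℕ) (hZ0 : ∀ m ∈ Z0, ser b m = 0) (hc : P.natDegree ≤ Z0.card) :
    b = 0 := by
  obtain ⟨Z, hZZ, hZc⟩ := Finset.exists_subset_card_eq hc
  have hZ : ∀ m ∈ Z, ser b m = 0 := fun m hm => hZ0 m (hZZ hm)
  have key : ∀ e : ℕ, ∃ b' : ℕ → ℤ_[p], b = (p : ℤ_[p]) ^ e • b' := by
    intro e
    induction e with
    | zero => exact ⟨b, by simp⟩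
    | succ e ih =>
      obtain ⟨b', hb'⟩ := ih
      have hpe : (p : ℤ_[p]) ^ e ≠ 0 := pow_ne_zero _ p_ne
      have hA : Ann P b' := by
        intro Q
        have h1 := h Q
        rw [hb', phi_smul] at h1
        exact (mul_eq_zero.1 h1).resolve_left hpe
      have hZ' : ∀ m ∈ Z, ser b' m = 0 := by
        intro m hm
        have h1 := hZ m hm
        have h2 : ser b m = (p : ℤ_[p]) ^ e * ser b' m := by
          unfold ser
          rw [Finset.mul_sum]
          refine Finset.sum_congr rfl fun k _ => ?_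
          rw [hb', Pi.smul_apply, smul_eq_mul]
          ring
        rw [h2] at h1
        exact (mul_eq_zero.1 h1).resolve_left hpe
      have h3 := dvd_coeff b' P.natDegree (fun m => by
        rw [← hZc]
        exact strass b' Z (by omega) hZ' m)
      have h4 : ∀ j < P.natDegree, (p : ℤ_[p]) ∣ b' j := by
        intro j hj
        have h5 := h3 j
        obtain ⟨l, hl⟩ : ∃ l, P.natDegree = j + (l + 1) := ⟨P.natDegree - j - 1, by omega⟩
        rw [hl, pow_add] at h5
        have h6 := (mul_dvd_mul_iff_left (pow_ne_zero _ p_ne)).1 h5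
        exact (dvd_pow_self _ (Nat.succ_ne_zero l)).trans h6
      have h5 := ann_low P hP b' hA p h4
      choose c hc using h5
      refine ⟨c, ?_⟩
      funext k
      rw [hb', Pi.smul_apply, Pi.smul_apply, hc k, smul_eq_mul, smul_eq_mul, pow_succ]
      ring
  funext k
  refine eq_zero_of_pow_dvd _ fun e => ?_
  obtain ⟨b', hb'⟩ := key e
  rw [hb', Pi.smul_apply, smul_eq_mul]
  exact dvd_mul_right _ _

end Q99.SML
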