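import Pool.Agent.Q99.SML.Match
import Pool.Agent.Q99.SML.Cox
import Pool.Agent.Q99.SML.Embed
import Pool.Agent.Q99.SML.Defs

/-!
# The linear representation
-/

set_option autoImplicit false

open Finset LaurentPolynomial Pool.Agent.H891R2.Jones Pool.Agent.W639.RB

namespace Q99.SML

variable {m : ℕ} {K : Type*} [CommRing K]

/-- index set: matchings and orientation patterns -/
abbrev Ix (m : ℕ) : Type := Mt m × (Fin m → Bool)

/-- the transposition -/
def swp (i : ℕ) (h : i + 1 < m) : Equiv.Perm (Fin m) :=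
  Equiv.swap ⟨i, Nat.lt_of_succ_lt h⟩ ⟨i + 1, h⟩

/-- the product of the directions -/
def cst (U : Fin m → Bool) (i : ℕ) : ℤ := pat U i * pat U (i + 1)

theorem swp_swp (U : Fin m → Bool) (i : ℕ) (h : i + 1 < m) : (U ∘ swp i h) ∘ swp i h = U := by
  funext j; simp [swp]

theorem cst_swp (U : Fin m → Bool) (i : ℕ) (h : i + 1 < m) : cst (U ∘ swp i h) i = cst U i := by
  unfold cst swp
  rw [pat_swap U i h]
  simp only [Function.comp_apply, Equiv.swap_apply_left, Equiv.swap_apply_right]
  ring

/-- the unit `-a^{-3}` -/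
def eta (a : Kˣ) : Kˣ := -(a⁻¹ ^ 3)

/-- the value of a closed component -/
def dd (a : Kˣ) : K := -((a ^ (2:ℤ) : Kˣ) : K) - ((a ^ (-2:ℤ) : Kˣ) : K)

/-- the action of a letter -/
noncomputable def Lf (a : Kˣ) (b : Bool) (i : ℕ) : Module.End K (Ix m → K) :=
  if h : i + 1 < m then
    { toFun := fun g x => ((eta a ^ (sgb b * cst x.2 i) : Kˣ) : K) *
        (((a ^ (sgb b) : Kˣ) : K) * g (x.1, x.2 ∘ swp i h) + ((a ^ (- sgb b) : Kˣ) : K) *
          (dd a ^ (bI i h x.1) * g (tI i h x.1, x.2 ∘ swp i h)))
      map_add' := by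
        intro g g'
        funext x
        simp only [Pi.add_apply]
        ring
      map_smul' := by
        intro c g
        funext x
        simp only [Pi.smul_apply, smul_eq_mul, RingHom.id_apply]
        ring }
  else 1

theorem Lf_apply (a : Kˣ) (b : Bool) (i : ℕ) (h : i + 1 < m) (g : Ix m → K) (x : Ix m) :
    Lf a b i g x = ((eta a ^ (sgb b * cst x.2 i) : Kˣ) : K) *
        (((a ^ (sgb b) : Kˣ) : K) * g (x.1, x.2 ∘ swp i h) + ((a ^ (- sgb b) : Kˣ) : K) *
          (dd a ^ (bI i h x.1) * g (tI i h x.1, x.2 ∘ swp i h))) := by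
  unfold Lf
  rw [dif_pos h]
  rfl

theorem sgb_not (b : Bool) : sgb (!b) = - sgb b := by cases b <;> simp [sgb]

theorem Lf_mul (a : Kˣ) (b : Bool) (i : ℕ) :
    Lf (m := m) a b i * Lf a (!b) i = 1 := by
  by_cases h : i + 1 < m
  · apply LinearMap.ext
    intro g
    funext x
    rw [Module.End.mul_apply, Lf_apply a b i h, Lf_apply a (!b) i h, Lf_apply a (!b) i h]
    have hr := rel_sq i h x.1
    simp only [cst_swp, swp_swp, hr.1, hr.2, sgb_not, neg_neg]
    rw [show sgb b * cst x.2 i = sgb b * cst x.2 i from rfl]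
    have e1 : ((eta a ^ (sgb b * cst x.2 i) : Kˣ) : K) * ((eta a ^ (-(sgb b) * cst x.2 i) : Kˣ) : K) = 1 := by
      rw [← Units.val_mul, ← zpow_add]
      simp
    have e2 : ((a ^ (sgb b) : Kˣ) : K) * ((a ^ (- sgb b) : Kˣ) : K) = 1 := by
      rw [← Units.val_mul, ← zpow_add]
      simp
    have e3 : dd a = -(((a ^ (sgb b) : Kˣ) : K) ^ 2) - ((a ^ (- sgb b) : Kˣ) : K) ^ 2 := by
      unfold dd
      rw [← Units.val_pow_eq_pow_val, ← Units.val_pow_eq_pow_val, ← zpow_natCast, ← zpow_natCast,
        ← zpow_mul, ← zpow_mul]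
      cases b
      · simp only [sgb, Bool.false_eq_true, if_false]
        norm_num
        ring
      · simp only [sgb, if_true]
        norm_num
    rw [Module.End.one_apply]
    set E := ((eta a ^ (sgb b * cst x.2 i) : Kˣ) : K)
    set E' := ((eta a ^ (-(sgb b) * cst x.2 i) : Kˣ) : K)
    set P := ((a ^ (sgb b) : Kˣ) : K)
    set Q := ((a ^ (- sgb b) : Kˣ) : K)
    set B := dd a ^ (bI i h x.1)
    set G := g (tI i h x.1, x.2)
    rw [pow_one, e3]
    have e4 : g (x.1, x.2) = g x := rfl
    rw [e4]
    linear_combination (P * Q * g x + B * G * (P^2 + Q^2 + P * Q * (-P^2 - Q^2))) * e1 +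
      (g x + B * G * (-P^2 - Q^2)) * e2
  · unfold Lf
    rw [dif_neg h, dif_neg h, one_mul]

/-- the letters as invertible maps -/
noncomputable def LU (a : Kˣ) (x : Bool × ℕ) : (Module.End K (Ix m → K))ˣ where
  val := Lf a x.1 x.2
  inv := Lf a (!x.1) x.2
  val_inv := Lf_mul a x.1 x.2
  inv_val := by
    have := Lf_mul (m := m) a (!x.1) x.2
    rwa [Bool.not_not] at this

/-! ### the value `a = 1` -/

/-- the Temperley-Lieb generators on the space of functions -/
noncomputable def eX (m : ℕ) (K : Type*) [CommRing K] (d : K) (i : ℕ) :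
    Module.End K (Ix m → K) :=
  if h : i + 1 < m then
    { toFun := fun g x => d ^ (bI i h x.1) * g (tI i h x.1, x.2)
      map_add' := by
        intro g g'
        funext x
        simp only [Pi.add_apply]
        ring
      map_smul' := by
        intro c g
        funext x
        simp only [Pi.smul_apply, smul_eq_mul, RingHom.id_apply]
        ring }
  else 0

theorem eX_apply (d : K) (i : ℕ) (h : i + 1 < m) (g : Ix m → K) (x : Ix m) :
    eX m K d i g x = d ^ (bI i h x.1) * g (tI i h x.1, x.2) := by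
  unfold eX
  rw [dif_pos h]
  rfl

theorem eX_TL {K : Type*} [Field K] (d : K) : IsTL m d (eX m K d) where
  sq i hi := by
    apply LinearMap.ext
    intro g
    funext x
    obtain ⟨h1, h2⟩ := rel_sq i hi x.1
    rw [Module.End.mul_apply, LinearMap.smul_apply, Pi.smul_apply, eX_apply d i hi,
      eX_apply d i hi, eX_apply d i hi, smul_eq_mul, h1, h2]
    ring
  up i hi := by
    apply LinearMap.ext
    intro g
    funext x
    obtain ⟨h1, h2⟩ := rel_up i hi x.1
    rw [Module.End.mul_apply, Module.End.mul_apply, eX_apply d i (by omega), eX_apply d (i+1) hi,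
      eX_apply d i (by omega), eX_apply d i (by omega), h2]
    conv_rhs => rw [← h1]
    rw [pow_add, pow_add]
    ring
  down i hi := by
    apply LinearMap.ext
    intro g
    funext x
    obtain ⟨h1, h2⟩ := rel_down i hi x.1
    rw [Module.End.mul_apply, Module.End.mul_apply, eX_apply d (i+1) hi, eX_apply d i (by omega),
      eX_apply d (i+1) hi, eX_apply d (i+1) hi, h2]
    conv_rhs => rw [← h1]
    rw [pow_add, pow_add]
    ring
  far i j hj hij := by
    apply LinearMap.ext
    intro g
    funext x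
    obtain ⟨h1, h2⟩ := rel_far i j hj hij x.1
    rw [Module.End.mul_apply, Module.End.mul_apply, eX_apply d i (by omega), eX_apply d j hj,
      eX_apply d j hj, eX_apply d i (by omega), ← h2, ← mul_assoc, ← mul_assoc, ← pow_add,
      ← pow_add, h1]

/-- the action of a transposition on the orientation patterns -/
noncomputable def Rf (m : ℕ) (K : Type*) [CommRing K] (i : ℕ) : Module.End K (Ix m → K) :=
  if h : i + 1 < m then
    { toFun := fun g x => g (x.1, x.2 ∘ swp i h)
      map_add' := fun _ _ => rfl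
      map_smul' := fun _ _ => rfl }
  else 1

theorem Rf_apply (i : ℕ) (h : i + 1 < m) (g : Ix m → K) (x : Ix m) :
    Rf m K i g x = g (x.1, x.2 ∘ swp i h) := by
  unfold Rf
  rw [dif_pos h]
  rfl

theorem eX_Rf (d : K) (i j : ℕ) (hi : i + 1 < m) (hj : j + 1 < m) :
    eX m K d i * Rf m K j = Rf m K j * eX m K d i := by
  apply LinearMap.ext
  intro g
  funext x
  rw [Module.End.mul_apply, Module.End.mul_apply, eX_apply d i hi, Rf_apply j hj, Rf_apply j hj,
    eX_apply d i hi]

theorem swp_val (i : ℕ) (h : i + 1 < m) (x : Fin m) :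
    ((swp i h x : Fin m) : ℕ) = Equiv.swap i (i + 1) (x : ℕ) := by
  unfold swp
  rw [Equiv.swap_apply_def, Equiv.swap_apply_def]
  by_cases h1 : x = ⟨i, Nat.lt_of_succ_lt h⟩
  · rw [if_pos h1, if_pos (by rw [h1])]
  · rw [if_neg h1, if_neg (fun e => h1 (Fin.ext e))]
    by_cases h2 : x = ⟨i + 1, h⟩
    · rw [if_pos h2, if_pos (by rw [h2])]
    · rw [if_neg h2, if_neg (fun e => h2 (Fin.ext e))]

theorem Rf_braid (i : ℕ) (h : i + 1 + 1 < m) :
    Rf m K i * Rf m K (i+1) * Rf m K i = Rf m K (i+1) * Rf m K i * Rf m K (i+1) := by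
  apply LinearMap.ext
  intro g
  funext x
  rw [Module.End.mul_apply, Module.End.mul_apply, Module.End.mul_apply, Module.End.mul_apply,
    Rf_apply i (by omega), Rf_apply (i+1) h, Rf_apply i (by omega), Rf_apply (i+1) h,
    Rf_apply i (by omega), Rf_apply (i+1) h]
  have key : ((x.2 ∘ swp i (by omega)) ∘ swp (i+1) h) ∘ swp i (by omega) =
      ((x.2 ∘ swp (i+1) h) ∘ swp i (by omega)) ∘ swp (i+1) h := by
    funext j
    simp only [Function.comp_apply]
    refine congrArg x.2 (Fin.ext ?_)
    rw [swp_val, swp_val, swp_val, swp_val, swp_val, swp_val]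
    have := congrArg (fun e : Equiv.Perm ℕ => e j) ((cox_tr (i + 2)).br i (by omega))
    exact this
  simp only [key]

theorem Rf_far (i j : ℕ) (hj : j + 1 < m) (hij : i + 2 ≤ j) :
    Rf m K i * Rf m K j = Rf m K j * Rf m K i := by
  apply LinearMap.ext
  intro g
  funext x
  rw [Module.End.mul_apply, Module.End.mul_apply, Rf_apply i (by omega), Rf_apply j hj,
    Rf_apply j hj, Rf_apply i (by omega)]
  have key : (x.2 ∘ swp i (by omega)) ∘ swp j hj = (x.2 ∘ swp j hj) ∘ swp i (by omega) := by
    funext l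
    simp only [Function.comp_apply]
    refine congrArg x.2 (Fin.ext ?_)
    rw [swp_val, swp_val, swp_val, swp_val]
    have := congrArg (fun e : Equiv.Perm ℕ => e l) ((cox_tr (j + 1)).far i j (by omega) hij)
    exact this
  simp only [key]

theorem cst_cases (U : Fin m → Bool) (i : ℕ) (h : i + 1 < m) : cst U i = 1 ∨ cst U i = -1 := by
  unfold cst pat
  rw [dif_pos (Nat.lt_of_succ_lt h), dif_pos h]
  split_ifs <;> simp

theorem eta_pow (b : Bool) (U : Fin m → Bool) (i : ℕ) (h : i + 1 < m) :
    (((eta (1 : Kˣ)) ^ (sgb b * cst U i) : Kˣ) : K) = -1 := by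
  have h1 : eta (1 : Kˣ) = -1 := by simp [eta]
  rw [h1]
  rcases cst_cases U i h with h2 | h2 <;> rw [h2] <;> cases b <;> simp [sgb]

theorem Lf_one {K : Type*} [Field K] (b : Bool) (i : ℕ) (h : i + 1 < m) :
    Lf (m := m) (1 : Kˣ) b i =
      (-1 : K) • (sg (1 : K) (eX m K (dd (1 : Kˣ))) i * Rf m K i) := by
  apply LinearMap.ext
  intro g
  funext x
  rw [Lf_apply (1 : Kˣ) b i h, eta_pow b x.2 i h, LinearMap.smul_apply, Pi.smul_apply,
    Module.End.mul_apply, smul_eq_mul]
  unfold sg
  rw [LinearMap.add_apply, Pi.add_apply, inv_one, one_smul, one_smul, Module.End.one_apply,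
    Rf_apply i h, eX_apply _ i h, Rf_apply i h]
  simp

/-- at `a = 1` the letters are involutions satisfying the braid relations -/
theorem cox_LU {K : Type*} [Field K] :
    Cox (m - 1) (fun i => LU (m := m) (1 : Kˣ) (true, i)) := by
  have hA : (1 : K) ≠ 0 := one_ne_zero
  have hd : dd (1 : Kˣ) = -(1 : K) ^ 2 - (1 : K)⁻¹ ^ 2 := by simp [dd]
  have hTL := eX_TL (m := m) (dd (1 : Kˣ))
  have hcomm : ∀ i j, i + 1 < m → j + 1 < m →
      sg (1 : K) (eX m K (dd (1 : Kˣ))) i * Rf m K j = Rf m K j * sg (1 : K) (eX m K (dd (1 : Kˣ))) i := by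
    intro i j hi hj
    simp only [sg, add_mul, mul_add, smul_mul_assoc, mul_smul_comm, one_mul, mul_one,
      eX_Rf _ i j hi hj]
  refine ⟨fun i hi => ?_, fun i hi => ?_, fun i j hj hij => ?_⟩
  · apply Units.ext
    have h1 : Lf (m := m) (1 : Kˣ) true i = Lf (1 : Kˣ) (!true) i := by
      rw [Lf_one true i (by omega), Lf_one (!true) i (by omega)]
    show Lf (m := m) (1 : Kˣ) true i * Lf (1 : Kˣ) true i = 1
    conv_lhs => rw [h1]
    have := Lf_mul (m := m) (1 : Kˣ) (!true) i
    rwa [Bool.not_not, h1] at this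
  · apply Units.ext
    show Lf (m := m) (1 : Kˣ) true i * Lf (1 : Kˣ) true (i+1) * Lf (1 : Kˣ) true i =
      Lf (m := m) (1 : Kˣ) true (i+1) * Lf (1 : Kˣ) true i * Lf (1 : Kˣ) true (i+1)
    rw [Lf_one true i (by omega), Lf_one true (i+1) (by omega)]
    have hb := braid hA hd hTL i (by omega)
    have hR := Rf_braid (m := m) (K := K) i (by omega)
    set S := sg (1 : K) (eX m K (dd (1 : Kˣ))) i
    set S' := sg (1 : K) (eX m K (dd (1 : Kˣ))) (i+1)
    set R := Rf m K i
    set R' := Rf m K (i+1)
    have c1 : S * R = R * S := hcomm i i (by omega) (by omega)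
    have c2 : S' * R = R * S' := hcomm (i+1) i (by omega) (by omega)
    have c3 : S * R' = R' * S := hcomm i (i+1) (by omega) (by omega)
    have c4 : S' * R' = R' * S' := hcomm (i+1) (i+1) (by omega) (by omega)
    have l : (S * R) * (S' * R') * (S * R) = (S * S' * S) * (R * R' * R) := by
      calc _ = S * (R * S') * (R' * S) * R := by simp only [mul_assoc]
        _ = S * (S' * R) * (S * R') * R := by rw [← c2, ← c3]
        _ = S * S' * (R * S) * R' * R := by simp only [mul_assoc]
        _ = S * S' * (S * R) * R' * R := by rw [← c1]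
        _ = _ := by simp only [mul_assoc]
    have r : (S' * R') * (S * R) * (S' * R') = (S' * S * S') * (R' * R * R') := by
      calc _ = S' * (R' * S) * (R * S') * R' := by simp only [mul_assoc]
        _ = S' * (S * R') * (S' * R) * R' := by rw [← c2, ← c3]
        _ = S' * S * (R' * S') * R * R' := by simp only [mul_assoc]
        _ = S' * S * (S' * R') * R * R' := by rw [← c4]
        _ = _ := by simp only [mul_assoc]
    simp only [smul_mul_assoc, mul_smul_comm]
    rw [l, r, hb, hR]
  · apply Units.ext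
    show Lf (m := m) (1 : Kˣ) true i * Lf (1 : Kˣ) true j =
      Lf (m := m) (1 : Kˣ) true j * Lf (1 : Kˣ) true i
    rw [Lf_one true i (by omega), Lf_one true j (by omega)]
    have hb := far_ss (A := (1 : K)) hTL i j (by omega) hij
    have hR := Rf_far (m := m) (K := K) i j (by omega) hij
    set S := sg (1 : K) (eX m K (dd (1 : Kˣ))) i
    set S' := sg (1 : K) (eX m K (dd (1 : Kˣ))) j
    set R := Rf m K i
    set R' := Rf m K j
    have c2 : S' * R = R * S' := hcomm j i (by omega) (by omega)
    have c3 : S * R' = R' * S := hcomm i j (by omega) (by omega)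
    have l : (S * R) * (S' * R') = (S' * R') * (S * R) := by
      calc _ = S * (R * S') * R' := by simp only [mul_assoc]
        _ = S * (S' * R) * R' := by rw [← c2]
        _ = (S * S') * (R * R') := by simp only [mul_assoc]
        _ = (S' * S) * (R' * R) := by rw [hb, hR]
        _ = S' * (S * R') * R := by simp only [mul_assoc]
        _ = S' * (R' * S) * R := by rw [← c3]
        _ = _ := by simp only [mul_assoc]
    simp only [smul_mul_assoc, mul_smul_comm]
    rw [l]

/-- the words as invertible maps -/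
noncomputable def WU (a : Kˣ) : List (Bool × ℕ) → (Module.End K (Ix m → K))ˣ
  | [] => 1
  | (x :: w) => WU a w * LU a x

theorem WU_append (a : Kˣ) (u v : List (Bool × ℕ)) :
    WU (m := m) a (u ++ v) = WU a v * WU a u := by
  induction u with
  | nil => simp [WU]
  | cons x u ih => rw [List.cons_append, WU, ih, WU, mul_assoc]

theorem LU_not (a : Kˣ) (x : Bool × ℕ) : LU (m := m) a (!x.1, x.2) = (LU a x)⁻¹ := by
  apply Units.ext
  rfl

theorem WU_invWord (a : Kˣ) (w : List (Bool × ℕ)) :
    WU (m := m) a (invWord w) = (WU a w)⁻¹ := by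
  induction w with
  | nil => simp [WU, invWord]
  | cons x w ih =>
    have h : invWord (x :: w) = invWord w ++ [(!x.1, x.2)] := by
      simp [invWord]
    rw [h, WU_append, ih]
    simp only [WU, one_mul, mul_inv_rev, LU_not]

/-- the valid indices of a word -/
def idx (m : ℕ) (w : Word) : List ℕ := (w.filter (fun x => x.2 + 1 < m)).map Prod.snd

theorem idx_lt (m : ℕ) (w : Word) : ∀ i ∈ idx m w, i < m - 1 := by
  intro i hi
  unfold idx at hi
  rw [List.mem_map] at hi
  obtain ⟨x, hx, rfl⟩ := hi
  rw [List.mem_filter] at hx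
  have := of_decide_eq_true hx.2
  omega

theorem idx_cons_pos (x : Bool × ℕ) (w : Word) (h : x.2 + 1 < m) :
    idx m (x :: w) = x.2 :: idx m w := by
  unfold idx
  rw [List.filter_cons_of_pos (by simpa using h), List.map_cons]

theorem idx_cons_neg (x : Bool × ℕ) (w : Word) (h : ¬ x.2 + 1 < m) :
    idx m (x :: w) = idx m w := by
  unfold idx
  rw [List.filter_cons_of_neg (by simpa using h)]

theorem wperm_idx (w : Word) : wperm m w = ((idx m w).map tr).prod := by
  induction w with
  | nil => rfl
  | cons x w ih =>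
    have h1 : wperm m (x :: w) =
        (if x.2 + 1 < m then Equiv.swap x.2 (x.2 + 1) else 1) * wperm m w := rfl
    rw [h1, ih]
    by_cases h : x.2 + 1 < m
    · rw [if_pos h, idx_cons_pos x w h]
      rfl
    · rw [if_neg h, idx_cons_neg x w h, one_mul]

theorem WU_idx {K : Type*} [Field K] (w : Word) : (WU (m := m) (1 : Kˣ) w)⁻¹ =
    ((idx m w).map (fun i => LU (m := m) (1 : Kˣ) (true, i))).prod := by
  induction w with
  | nil => simp [WU, idx]
  | cons x w ih =>
    rw [WU, mul_inv_rev, ih]
    by_cases h : x.2 + 1 < m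
    · rw [idx_cons_pos x w h, List.map_cons, List.prod_cons]
      congr 1
      rw [← LU_not]
      apply Units.ext
      show Lf (m := m) (1 : Kˣ) (!x.1) x.2 = Lf (1 : Kˣ) true x.2
      rw [Lf_one _ _ h, Lf_one _ _ h]
    · rw [idx_cons_neg x w h]
      have : (LU (m := m) (1 : Kˣ) x) = 1 := by
        apply Units.ext
        show Lf (m := m) (1 : Kˣ) x.1 x.2 = 1
        unfold Lf
        rw [dif_neg h]
      rw [this, inv_one, one_mul]

theorem WU_pow_one {K : Type*} [Field K] (w : Word) (P : ℕ) (h : wperm m w ^ P = 1) :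
    (WU (m := m) (1 : Kˣ) w) ^ P = 1 := by
  have hrep : ∀ {G : Type _} [Group G] (s : ℕ → G) (P : ℕ),
      (((List.replicate P (idx m w)).flatten).map s).prod = ((idx m w).map s).prod ^ P := by
    intro G _ s P
    induction P with
    | zero => simp
    | succ P ih =>
      rw [List.replicate_succ, List.flatten_cons, List.map_append, List.prod_append, ih, pow_succ']
  have hrep' : ∀ (s : ℕ → Equiv.Perm ℕ) (P : ℕ),
      (((List.replicate P (idx m w)).flatten).map s).prod = ((idx m w).map s).prod ^ P := by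
    intro s P
    induction P with
    | zero => simp
    | succ P ih =>
      rw [List.replicate_succ, List.flatten_cons, List.map_append, List.prod_append, ih, pow_succ']
  have h1 := cox_main (m - 1) _ (cox_LU (m := m) (K := K)) ((List.replicate P (idx m w)).flatten)
    (by
      intro i hi
      rw [List.mem_flatten] at hi
      obtain ⟨l, hl, hi⟩ := hi
      rw [List.mem_replicate] at hl
      rw [hl.2] at hi
      exact idx_lt m w i hi) (by rw [hrep', ← wperm_idx, h])
  rw [hrep, ← WU_idx, inv_pow, inv_eq_one] at h1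
  exact h1

/-! ### reduction -/

theorem Lf_map {K' : Type*} [CommRing K'] (φ : K →+* K') (a : Kˣ) (b : Bool) (i : ℕ)
    (v : Ix m → K) : (fun x => φ (Lf a b i v x)) =
      Lf (Units.map (φ : K →* K') a) b i (fun x => φ (v x)) := by
  by_cases h : i + 1 < m
  · funext x
    rw [Lf_apply a b i h, Lf_apply _ b i h, map_mul, map_add, map_mul, map_mul, map_mul, map_pow]
    have h1 : ∀ n : ℤ, φ ((a ^ n : Kˣ) : K) = ((Units.map (φ : K →* K') a ^ n : K'ˣ) : K') := by
      intro n
      rw [← map_zpow]
      rfl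
    have h2 : ∀ n : ℤ, φ ((eta a ^ n : Kˣ) : K) =
        ((eta (Units.map (φ : K →* K') a) ^ n : K'ˣ) : K') := by
      intro n
      have : eta (Units.map (φ : K →* K') a) = Units.map (φ : K →* K') (eta a) := by
        unfold eta
        apply Units.ext
        simp
      rw [this, ← map_zpow]
      rfl
    have h3 : φ (dd a) = dd (Units.map (φ : K →* K') a) := by
      unfold dd
      rw [map_sub, map_neg, h1, h1]
    rw [h1, h1, h2, h3]
  · unfold Lf
    rw [dif_neg h, dif_neg h]
    rfl

theorem WU_map {K' : Type*} [CommRing K'] (φ : K →+* K') (a : Kˣ) (w : Word) :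
    ∀ (v : Ix m → K), (fun x => φ ((WU a w : (Module.End K (Ix m → K))ˣ).1 v x)) =
      (WU (Units.map (φ : K →* K') a) w : (Module.End K' (Ix m → K'))ˣ).1 (fun x => φ (v x)) := by
  induction w with
  | nil => intro v; rfl
  | cons x w ih =>
    intro v
    have h1 := ih (Lf a x.1 x.2 v)
    rw [Lf_map] at h1
    exact h1

theorem WU_pow_map {K' : Type*} [CommRing K'] (φ : K →+* K') (a : Kˣ) (w : Word) (P : ℕ) :
    ∀ (v : Ix m → K), (fun x => φ ((WU a w ^ P : (Module.End K (Ix m → K))ˣ).1 v x)) =
      (WU (Units.map (φ : K →* K') a) w ^ P : (Module.End K' (Ix m → K'))ˣ).1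
        (fun x => φ (v x)) := by
  induction P with
  | zero => intro v; rfl
  | succ P ih =>
    intro v
    have h1 := ih ((WU a w : (Module.End K (Ix m → K))ˣ).1 v)
    rw [WU_map] at h1
    rw [pow_succ, pow_succ]
    exact h1

/-- the vector of an outside -/
noncomputable def gam (a : Kˣ) (O : Outer m) : Ix m → K := fun x =>
  open Classical in
  if x.2 = O.up then ((eta a ^ (owr O) : Kˣ) : K) * spec a (fill O x.1).bracket else 0

theorem gam_push (hm : 0 < m) (a : Kˣ) (O : Outer m) (x : Bool × ℕ) :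
    gam a (O.push x.1 x.2) = (LU a x : (Module.End K (Ix m → K))ˣ).1 (gam a O) := by
  classical
  obtain ⟨b, i⟩ := x
  by_cases h : i + 1 < m
  · funext y
    show gam a (O.push b i) y = Lf a b i (gam a O) y
    rw [Lf_apply a b i h]
    have hup : (O.push b i).up = O.up ∘ swp i h := by
      unfold Outer.push
      rw [dif_pos h]
      rfl
    have hiff : (y.2 ∘ swp i h = O.up) ↔ (y.2 = (O.push b i).up) := by
      rw [hup]
      constructor
      · intro h1; rw [← h1, swp_swp]
      · intro h1; rw [h1, swp_swp]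
    unfold gam
    by_cases hy : y.2 = (O.push b i).up
    · have hy' := hiff.2 hy
      simp only [hy', if_true]
      rw [if_pos hy, (push_writhe O b i h).1, push_fill hm O b i h, map_add, map_mul, map_mul,
        map_mul, map_pow, map_sub, map_neg, spec_T, spec_T, spec_T, spec_T, zpow_add, Units.val_mul]
      have h2 : cst y.2 i = pat O.up i * pat O.up (i+1) := by
        rw [hy, hup, cst_swp]; rfl
      rw [h2]
      have h3 : (if b = true then (1:ℤ) else -1) = sgb b := rfl
      rw [h3]
      unfold dd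
      ring
    · have hy' : ¬ (y.2 ∘ swp i h = O.up) := fun h1 => hy (hiff.1 h1)
      rw [if_neg hy]
      simp only [hy', if_false]
      ring
  · have h1 : O.push b i = O := by unfold Outer.push; rw [dif_neg h]
    have h2 : (LU (m := m) a (b, i)).1 = 1 := by
      show Lf a b i = 1
      unfold Lf; rw [dif_neg h]
    show gam a (O.push b i) = (LU a (b, i)).1 (gam a O)
    rw [h1, h2]
    rfl

theorem gam_draw (hm : 0 < m) (a : Kˣ) (w : List (Bool × ℕ)) : ∀ (O : Outer m),
    gam a (draw O w) = (WU a w : (Module.End K (Ix m → K))ˣ).1 (gam a O) := by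
  induction w with
  | nil => intro O; rfl
  | cons x w ih =>
    intro O
    have h1 : draw O (x :: w) = draw (O.push x.1 x.2) w := rfl
    rw [h1, ih, gam_push hm, WU, Units.val_mul]
    rfl

theorem gam_iter (hm : 0 < m) (a : Kˣ) (w : List (Bool × ℕ)) : ∀ (n : ℕ) (O : Outer m),
    gam a ((fun O : Outer m => draw O w)^[n] O) =
      (WU a w ^ n : (Module.End K (Ix m → K))ˣ).1 (gam a O) := by
  intro n
  induction n with
  | zero => intro O; rfl
  | succ n ih =>
    intro O
    rw [Function.iterate_succ_apply, ih, gam_draw hm, pow_succ, Units.val_mul]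
    rfl

theorem gam_power (hm : 0 < m) (a : Kˣ) (w : List (Bool × ℕ)) (n : ℤ) (O : Outer m) :
    gam a (power O w n) = (WU a w ^ n : (Module.End K (Ix m → K))ˣ).1 (gam a O) := by
  rcases n with n | n
  · rw [power, gam_iter hm]
    simp
  · rw [power, gam_iter hm, WU_invWord, zpow_negSucc, inv_pow]

/-- the invertible map of a product of powers -/
noncomputable def VU (a : Kˣ) : {k : ℕ} → (Fin k → Word) → (Fin k → Word) → (Fin k → ℤ) →
    (Module.End K (Ix m → K))ˣ
  | 0, _, _, _ => 1
  | _ + 1, w, u, n => VU a (Fin.tail w) (Fin.tail u) (Fin.tail n) *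
      (WU a (u 0) * WU a (w 0) ^ (n 0))

theorem gam_family (hm : 0 < m) (a : Kˣ) : ∀ (k : ℕ) (O : Outer m) (w u : Fin k → Word)
    (n : Fin k → ℤ), gam a (family O w u n) =
      (VU a w u n : (Module.End K (Ix m → K))ˣ).1 (gam a O)
  | 0, O, w, u, n => rfl
  | k + 1, O, w, u, n => by
    rw [family, gam_family hm a k, gam_draw hm, gam_power hm, VU, Units.val_mul, Units.val_mul]
    rfl

theorem VU_update (a : Kˣ) : ∀ (k : ℕ) (w u : Fin k → Word) (n : Fin k → ℤ) (j : Fin k),
    ∃ X Y : (Module.End K (Ix m → K))ˣ, ∀ z : ℤ,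
      VU a w u (Function.update n j z) = X * (WU a (w j)) ^ z * Y
  | 0, _, _, _, j => j.elim0
  | k + 1, w, u, n, j => by
    refine Fin.cases ?_ (fun j => ?_) j
    · refine ⟨VU a (Fin.tail w) (Fin.tail u) (Fin.tail n) * WU a (u 0), 1, fun z => ?_⟩
      rw [VU, Fin.tail_update_zero, Function.update_self, mul_one, mul_assoc]
    · obtain ⟨X, Y, h⟩ := VU_update a k (Fin.tail w) (Fin.tail u) (Fin.tail n) j
      refine ⟨X, Y * (WU a (u 0) * WU a (w 0) ^ (n 0)), fun z => ?_⟩
      rw [VU, Fin.tail_update_succ, h z, Function.update_of_ne (Fin.succ_ne_zero j).symm]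
      rw [mul_assoc (X * _) Y]
      rfl

theorem spec_fPoly (a : Kˣ) {P : Type} (D : Diagram P) :
    spec a D.fPoly = ((eta a ^ D.writhe : Kˣ) : K) * spec a D.bracket := by
  unfold Diagram.fPoly
  rw [map_mul, map_mul, spec_T]
  congr 1
  have h2 : (eta a) ^ D.writhe = (-1) ^ D.writhe * a ^ (-3 * D.writhe) := by
    unfold eta
    rw [neg_eq_neg_one_mul, mul_zpow, zpow_mul]
    congr 2
  rw [h2, Units.val_mul]
  congr 1
  by_cases h : Even D.writhe
  · rw [if_pos h, Even.neg_one_zpow h]; simp
  · rw [if_neg h, Odd.neg_one_zpow (Int.not_even_iff_odd.1 h)]; simp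

/-- the linear functional -/
noncomputable def lam (m : ℕ) (K : Type*) [CommRing K] : Ix m → K := fun x =>
  open Classical in if x.1 = strt m then 1 else 0

theorem lam_gam (hm : 0 < m) (a : Kˣ) (O : Outer m) :
    lam m K ⬝ᵥ gam a O = spec a O.close.fPoly := by
  classical
  rw [spec_fPoly, close_writhe, close_bracket hm, dotProduct]
  rw [Finset.sum_eq_single (strt m, O.up)]
  · simp [lam, gam]
  · rintro ⟨r, U⟩ _ hne
    by_cases h1 : r = strt m
    · have h2 : U ≠ O.up := fun h2 => hne (by rw [h1, h2])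
      simp [gam, h2]
    · simp [lam, h1]
  · intro h
    exact absurd (Finset.mem_univ _) h

end Q99.SML
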